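import Mathlib

set_option autoImplicit false
set_option linter.unusedSectionVars false

/-!
Kotzig's theorem in the form: a finite graph with a perfect matching `f` and no alternating circuit
has a matching edge which is a bridge.  `f` is the partner map, `N` the adjacency by non-matching
edges (multiplicities do not matter), `S` the vertex set.
-/

namespace Pool.Agent.H55.Kz

variable {V : Type*} [DecidableEq V]

/-- the matching edges `{x, f x}`, `x` in the list, are pairwise different -/
def Pw (f : V → V) (L : List V) : Prop := L.Pairwise (fun a b => a ≠ b ∧ a ≠ f b)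

/-- alternating circuit `v, f v, l₁, f l₁, l₂, f l₂, ...` in `S`: matching edges `{x, f x}` and
`N`-edges from `f x` to the next entry -/
def Circ (f : V → V) (N : V → V → Prop) (S : Finset V) (v : V) (l : List V) : Prop :=
  (∀ x ∈ v :: l, x ∈ S) ∧ Pw f (v :: l) ∧ (v :: (l ++ [v])).IsChain (fun a b => N (f a) b)

variable {f : V → V} {N : V → V → Prop} {S : Finset V}

lemma Circ.rotate (hf : ∀ x, f (f x) = x) {v w : V} {l1 l2 : List V}
    (h : Circ f N S v (l1 ++ w :: l2)) : Circ f N S w (l2 ++ v :: l1) := by
  obtain ⟨h1, h2, h3⟩ := h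
  have hp : List.Perm (v :: (l1 ++ w :: l2)) (w :: (l2 ++ v :: l1)) := by
    have e1 : v :: (l1 ++ w :: l2) = (v :: l1) ++ (w :: l2) := by simp
    have e2 : w :: (l2 ++ v :: l1) = (w :: l2) ++ (v :: l1) := by simp
    rw [e1, e2]
    exact List.perm_append_comm
  refine ⟨fun x hx => h1 x (hp.mem_iff.2 hx), ?_, ?_⟩
  · refine (hp.pairwise_iff ?_).1 h2
    rintro a b ⟨h4, h5⟩
    exact ⟨h4.symm, fun h6 => h5 (by rw [h6, hf])⟩
  · have e1 : v :: ((l1 ++ w :: l2) ++ [v]) = v :: (l1 ++ w :: (l2 ++ [v])) := by simp
    rw [e1, List.isChain_cons_split] at h3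
    have e2 : w :: ((l2 ++ v :: l1) ++ [w]) = w :: (l2 ++ v :: (l1 ++ [w])) := by simp
    rw [e2, List.isChain_cons_split]
    exact ⟨h3.2, h3.1⟩

lemma Circ.rev (hf : ∀ x, f (f x) = x) (hS : ∀ x ∈ S, f x ∈ S) (hN : ∀ x y, N x y → N y x)
    {v : V} {l : List V} (h : Circ f N S v l) : Circ f N S (f v) ((l.map f).reverse) := by
  obtain ⟨h1, h2, h3⟩ := h
  have hinj : ∀ a b, f a = f b → a = b := fun a b h => by rw [← hf a, h, hf]
  have hp : List.Perm ((v :: l).map f) (f v :: (l.map f).reverse) := by
    rw [List.map_cons]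
    exact List.Perm.cons _ (List.reverse_perm _).symm
  refine ⟨fun x hx => ?_, ?_, ?_⟩
  · have := hp.mem_iff.2 hx
    rw [List.mem_map] at this
    obtain ⟨y, hy, rfl⟩ := this
    exact hS y (h1 y hy)
  · refine (hp.pairwise_iff ?_).1 ?_
    · rintro a b ⟨h4, h5⟩
      exact ⟨h4.symm, fun h6 => h5 (by rw [h6, hf])⟩
    · rw [List.pairwise_map]
      refine List.Pairwise.imp ?_ h2
      rintro a b ⟨h4, h5⟩
      exact ⟨fun h => h4 (hinj _ _ h), fun h => h5 (hinj _ _ h)⟩
  · have e1 : f v :: ((l.map f).reverse ++ [f v]) = ((v :: (l ++ [v])).map f).reverse := by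
      simp
    rw [e1, List.isChain_reverse, List.isChain_map]
    refine List.IsChain.imp ?_ h3
    intro a b hab
    show N (f (f b)) (f a)
    rw [hf]
    exact hN _ _ hab

/-- matched bridge: `v ∉ A`, `f v ∈ A`, nothing else leaves `A` in `S` -/
def Bridge (f : V → V) (N : V → V → Prop) (S A : Finset V) (v : V) : Prop :=
  A ⊆ S ∧ v ∈ S ∧ v ∉ A ∧ f v ∈ A ∧ (∀ x ∈ A, x ≠ f v → f x ∈ A) ∧
    ∀ x ∈ A, ∀ y ∈ S, y ∉ A → ¬ N x y

theorem kotzig_aux (hf : ∀ x, f (f x) = x) (hfx : ∀ x, f x ≠ x) :
    ∀ (n : ℕ) (S : Finset V) (N : V → V → Prop), S.card ≤ n → S.Nonempty →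
      (∀ x ∈ S, f x ∈ S) → (∀ x y, N x y → N y x) → (∀ x, ¬ N x x) →
      (∀ v l, ¬ Circ f N S v l) → ∃ A v, Bridge f N S A v := by
  intro n
  induction n with
  | zero =>
    intro S N hc hne
    exact absurd (Finset.card_eq_zero.1 (by omega)) hne.ne_empty
  | succ n ih =>
    intro S N hc hne hS hN hI hcirc
    have hinj : ∀ a b, f a = f b → a = b := fun a b h => by rw [← hf a, h, hf]
    by_cases h1 : ∃ x ∈ S, ∀ y ∈ S, ¬ N x y
    · obtain ⟨x, hx, h1⟩ := h1
      refine ⟨{x}, f x, by simpa using hx, hS x hx, ?_, ?_, ?_, ?_⟩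
      · simpa using hfx x
      · simp [hf]
      · intro y hy hne
        rw [Finset.mem_singleton] at hy
        rw [hy, hf] at hne
        exact absurd rfl hne
      · intro y hy z hz _
        rw [Finset.mem_singleton] at hy
        rw [hy]
        exact h1 z hz
    push Not at h1
    -- blossom
    have hbl : ∃ (b : V) (l2 : List V), b ∈ S ∧ l2 ≠ [] ∧ (∀ x ∈ l2, x ∈ S) ∧
        Pw f (f b :: l2) ∧ (f b :: (l2 ++ [b])).IsChain (fun a b => N (f a) b) := by
      -- a longest alternating path
      let P : ℕ → Prop := fun m => ∃ L : List V, L.length = m ∧ L ≠ [] ∧ (∀ x ∈ L, x ∈ S) ∧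
        Pw f L ∧ L.IsChain (fun a b => N (f a) b)
      have hPb : ∀ m, P m → m ≤ S.card := by
        rintro m ⟨L, hL, _, hm, hp, _⟩
        have hnd : L.Nodup := by
          refine List.Pairwise.imp ?_ hp
          exact fun h => h.1
        rw [← hL, ← List.toFinset_card_of_nodup hnd]
        exact Finset.card_le_card (fun x hx => hm x (List.mem_toFinset.1 hx))
      obtain ⟨x0, hx0⟩ := hne
      have hP1 : P 1 := ⟨[x0], rfl, by simp, by simpa using hx0, by simp [Pw], by simp⟩
      classical
      obtain ⟨m, hm, hmax⟩ : ∃ m, P m ∧ ∀ m', P m' → m' ≤ m := by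
        have := Nat.findGreatest_spec (P := P) (n := S.card) (hPb 1 hP1) hP1
        exact ⟨_, this, fun m' hm' => Nat.le_findGreatest (hPb m' hm') hm'⟩
      obtain ⟨L, hLl, hL0, hLS, hLp, hLc⟩ := hm
      obtain ⟨L', v, rfl⟩ : ∃ L' v, L = L' ++ [v] :=
        ⟨L.dropLast, L.getLast hL0, (List.dropLast_append_getLast hL0).symm⟩
      have hv : v ∈ S := hLS v (by simp)
      obtain ⟨y, hy, hNy⟩ := h1 (f v) (hS v hv)
      by_cases hy1 : y ∈ L' ++ [v]
      · -- circuit
        exfalso
        obtain ⟨l1, l2, e⟩ := List.append_of_mem hy1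
        refine hcirc y l2 ⟨?_, ?_, ?_⟩
        · intro x hx
          exact hLS x (by rw [e]; exact List.mem_append_right _ hx)
        · unfold Pw at hLp ⊢
          rw [e, List.pairwise_append] at hLp
          exact hLp.2.1
        · rw [e] at hLc
          have h2 := hLc.right_of_append
          have h3 : (y :: l2).getLast (by simp) = v := by
            have h4 : (l1 ++ y :: l2).getLast (by simp) = v := by
              have : (L' ++ [v]).getLast (by simp) = v := by simp
              rw [← this]
              congr 1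
              exact e.symm
            rw [List.getLast_append_of_ne_nil (by simp)] at h4
            exact h4
          have e3 : y :: (l2 ++ [y]) = (y :: l2) ++ [y] := by simp
          rw [e3]
          refine List.IsChain.append h2 (by simp) ?_
          intro a ha b hb
          rw [List.getLast?_eq_getLast_of_ne_nil (by simp), Option.mem_some_iff] at ha
          simp at hb
          rw [← ha, ← hb, h3]
          exact hNy
      by_cases hy2 : f y ∈ L' ++ [v]
      · obtain ⟨l1, l2, e⟩ := List.append_of_mem hy2
        refine ⟨y, l2, hy, ?_, ?_, ?_, ?_⟩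
        · rintro rfl
          have h4 : (l1 ++ [f y]).getLast (by simp) = v := by
            have : (L' ++ [v]).getLast (by simp) = v := by simp
            rw [← this]
            congr 1
            exact e.symm
          rw [List.getLast_append_of_ne_nil (by simp) (by simp)] at h4
          simp at h4
          rw [← h4, hf] at hNy
          exact hI _ hNy
        · intro x hx
          exact hLS x (by rw [e]; exact List.mem_append_right _ (List.mem_cons_of_mem _ hx))
        · unfold Pw at hLp ⊢
          rw [e, List.pairwise_append] at hLp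
          exact hLp.2.1
        · rw [e] at hLc
          have h2 := hLc.right_of_append
          have h3 : (f y :: l2).getLast (by simp) = v := by
            have h4 : (l1 ++ f y :: l2).getLast (by simp) = v := by
              have : (L' ++ [v]).getLast (by simp) = v := by simp
              rw [← this]
              congr 1
              exact e.symm
            rw [List.getLast_append_of_ne_nil (by simp)] at h4
            exact h4
          have e3 : f y :: (l2 ++ [y]) = (f y :: l2) ++ [y] := by simp
          rw [e3]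
          refine List.IsChain.append h2 (by simp) ?_
          intro a ha b hb
          rw [List.getLast?_eq_getLast_of_ne_nil (by simp), Option.mem_some_iff] at ha
          simp at hb
          rw [← ha, ← hb, h3]
          exact hNy
      · -- longer path
        exfalso
        have := hmax (m + 1) ⟨(L' ++ [v]) ++ [y], by rw [List.length_append, hLl]; rfl, by simp,
          ?_, ?_, ?_⟩
        · omega
        · intro x hx
          rw [List.mem_append] at hx
          rcases hx with hx | hx
          · exact hLS x hx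
          · simp at hx
            rw [hx]
            exact hy
        · unfold Pw at hLp ⊢
          rw [List.pairwise_append]
          refine ⟨hLp, by simp, ?_⟩
          intro a ha b hb
          simp at hb
          subst hb
          exact ⟨fun h => hy1 (h ▸ ha), fun h => hy2 (h ▸ ha)⟩
        · refine List.IsChain.append hLc (by simp) ?_
          intro a ha b hb
          simp at ha hb
          rw [← ha, ← hb]
          exact hNy
    obtain ⟨b, l2, hb, hl0, hlS, hlp, hlc⟩ := hbl
    -- the set D = blossom without its base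
    set D : Finset V := l2.toFinset ∪ (l2.map f).toFinset with hD
    have hDm : ∀ x, x ∈ D ↔ x ∈ l2 ∨ f x ∈ l2 := by
      intro x
      rw [hD, Finset.mem_union, List.mem_toFinset, List.mem_toFinset, List.mem_map]
      constructor
      · rintro (h | ⟨y, hy, rfl⟩)
        · exact Or.inl h
        · right; rwa [hf]
      · rintro (h | h)
        · exact Or.inl h
        · exact Or.inr ⟨f x, h, hf x⟩
    have hDf : ∀ x, x ∈ D → f x ∈ D := by
      intro x hx
      rw [hDm] at hx ⊢
      rw [hf]
      exact hx.symm
    have hDS : D ⊆ S := by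
      intro x hx
      rw [hDm] at hx
      rcases hx with h | h
      · exact hlS x h
      · have := hS _ (hlS _ h)
        rwa [hf] at this
    have hbD : b ∉ D := by
      intro h
      rw [hDm] at h
      unfold Pw at hlp
      rw [List.pairwise_cons] at hlp
      rcases h with h | h
      · exact (hlp.1 b h).2 rfl
      · exact (hlp.1 (f b) h).1 rfl
    have hfbD : f b ∉ D := fun h => hbD (by have := hDf _ h; rwa [hf] at this)
    have hDne : D.Nonempty := by
      obtain ⟨a, l, rfl⟩ := List.exists_cons_of_ne_nil hl0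
      exact ⟨a, (hDm a).2 (Or.inl (by simp))⟩
    set S' : Finset V := S \ D with hS'
    set N' : V → V → Prop := fun x y => x ≠ y ∧
      (N x y ∨ (x = b ∧ ∃ z ∈ D, N z y) ∨ (y = b ∧ ∃ z ∈ D, N x z)) with hN'
    have hcard : S'.card ≤ n := by
      have : S'.card < S.card := by
        apply Finset.card_lt_card
        rw [Finset.ssubset_iff_subset_ne]
        refine ⟨Finset.sdiff_subset, fun h => ?_⟩
        obtain ⟨a, ha⟩ := hDne
        have := hDS ha
        rw [← h, hS', Finset.mem_sdiff] at this
        exact this.2 ha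
      omega
    have hb' : b ∈ S' := Finset.mem_sdiff.2 ⟨hb, hbD⟩
    -- paths inside the blossom
    have hpath : ∀ z c, (z = b ∨ z ∈ D) → N z c → ∃ P : List V, (∀ x ∈ P, x ∈ D) ∧ Pw f P ∧
        (f b :: (P ++ [c])).IsChain (fun a b => N (f a) b) := by
      rintro z c (rfl | hz) hNz
      · refine ⟨[], by simp, by simp [Pw], ?_⟩
        simp only [List.nil_append]
        rw [List.isChain_pair, hf]
        exact hNz
      · rw [hDm] at hz
        rcases hz with hz | hz
        · -- z = u, path reversed
          obtain ⟨q1, q2, e⟩ := List.append_of_mem hz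
          refine ⟨((z :: q2).map f).reverse, ?_, ?_, ?_⟩
          · intro x hx
            rw [List.mem_reverse, List.mem_map] at hx
            obtain ⟨y, hy, rfl⟩ := hx
            apply hDf
            rw [hDm]
            left
            rw [e]
            exact List.mem_append_right _ hy
          · unfold Pw at hlp ⊢
            rw [e, List.pairwise_cons, List.pairwise_append] at hlp
            rw [List.pairwise_reverse, List.pairwise_map]
            refine List.Pairwise.imp ?_ hlp.2.2.1
            rintro a b ⟨h4, h5⟩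
            exact ⟨fun h => h4 (hinj _ _ h).symm, fun h => h5 (by rw [h, hf])⟩
          · rw [e] at hlc
            have e1 : f b :: ((q1 ++ z :: q2) ++ [b]) = (f b :: q1) ++ (z :: (q2 ++ [b])) := by
              simp
            rw [e1] at hlc
            have h2 := hlc.right_of_append
            have e2 : f b :: (((z :: q2).map f).reverse ++ [c]) =
              (((z :: (q2 ++ [b])).map f).reverse) ++ [c] := by simp
            rw [e2]
            refine List.IsChain.append ?_ (by simp) ?_
            · rw [List.isChain_reverse, List.isChain_map]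
              refine List.IsChain.imp ?_ h2
              intro a b hab
              show N (f (f b)) (f a)
              rw [hf]
              exact hN _ _ hab
            · intro a' ha b' hb
              have e3 : (((z :: (q2 ++ [b])).map f).reverse).getLast? = some (f z) := by
                rw [List.getLast?_reverse]
                rfl
              rw [e3, Option.mem_some_iff] at ha
              simp at hb
              rw [← ha, ← hb, hf]
              exact hNz
        · obtain ⟨q1, q2, e⟩ := List.append_of_mem hz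
          refine ⟨q1 ++ [f z], ?_, ?_, ?_⟩
          · intro x hx
            rw [hDm]
            left
            rw [e]
            rw [List.mem_append] at hx ⊢
            rcases hx with hx | hx
            · exact Or.inl hx
            · simp at hx
              right
              simp [hx]
          · unfold Pw at hlp ⊢
            have e1 : f b :: (q1 ++ f z :: q2) = (f b :: []) ++ ((q1 ++ [f z]) ++ q2) := by simp
            rw [e, e1, List.pairwise_append, List.pairwise_append] at hlp
            exact hlp.2.1.1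
          · rw [e] at hlc
            have e1 : f b :: ((q1 ++ f z :: q2) ++ [b]) = f b :: (q1 ++ f z :: (q2 ++ [b])) := by
              simp
            rw [e1, List.isChain_cons_split] at hlc
            have e2 : f b :: ((q1 ++ [f z]) ++ [c]) = (f b :: (q1 ++ [f z])) ++ [c] := by simp
            rw [e2]
            refine List.IsChain.append hlc.1 (by simp) ?_
            intro a' ha b' hb
            have e3 : (f b :: (q1 ++ [f z])).getLast? = some (f z) := by
              rw [← List.cons_append, List.getLast?_concat]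
            rw [e3, Option.mem_some_iff] at ha
            simp at hb
            rw [← ha, ← hb, hf]
            exact hNz
    have hcirc' : ∀ v l, ¬ Circ f N' S' v l := by
      have key : ∀ l, ¬ Circ f N' S' (f b) l := by
        rintro l ⟨h2, h3, h4⟩
        obtain ⟨c, r, e⟩ : ∃ c r, l ++ [f b] = c :: r := by
          cases l with
          | nil => exact ⟨f b, [], rfl⟩
          | cons c l => exact ⟨c, l ++ [f b], rfl⟩
        rw [e, List.isChain_cons_cons] at h4
        obtain ⟨h5, h6⟩ := h4
        rw [hf] at h5
        unfold Pw at h3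
        rw [List.pairwise_cons] at h3
        have hcb : c ≠ b := fun h => h5.1 h.symm
        have hlb : ∀ x ∈ l, x ≠ b ∧ x ≠ f b := by
          intro x hx
          exact ⟨fun h => (h3.1 x hx).2 (by rw [h]), fun h => (h3.1 x hx).1 h.symm⟩
        have hmr : ∀ x ∈ c :: r, x ∈ l ∨ x = f b := by
          intro x hx
          rw [← e, List.mem_append] at hx
          simpa using hx
        have hcr : (c :: r).IsChain (fun a b => N (f a) b) := by
          have h7 : (l ++ [f b]).IsChain (fun a b => N' (f a) b) := by rw [e]; exact h6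
          rw [← e]
          cases l with
          | nil => simp
          | cons q l =>
            rw [List.isChain_append] at h7 ⊢
            refine ⟨List.IsChain.imp_of_mem_imp ?_ h7.1, by simp, ?_⟩
            · rintro x y hx hy ⟨h8, h9 | ⟨h9, _⟩ | ⟨h9, _⟩⟩
              · exact h9
              · exact absurd (by rw [← h9, hf]) (hlb x hx).2
              · exact absurd h9 (hlb y hy).1
            · intro x hx y hy
              have hx' : x ∈ q :: l := List.mem_of_getLast? hx
              have hy' : y = f b := by simpa using hy.symm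
              obtain ⟨h8, h9 | ⟨h9, _⟩ | ⟨h9, _⟩⟩ := h7.2.2 x hx y hy
              · exact h9
              · exact absurd (by rw [← h9, hf]) (hlb x hx').2
              · rw [hy'] at h9
                exact absurd h9 (hfx b)
        obtain ⟨z, hz, hNz⟩ : ∃ z, (z = b ∨ z ∈ D) ∧ N z c := by
          obtain ⟨_, h9 | ⟨_, z, hz, h9⟩ | ⟨h9, _⟩⟩ := h5
          · exact ⟨b, Or.inl rfl, h9⟩
          · exact ⟨z, Or.inr hz, h9⟩
          · exact absurd h9 hcb
        obtain ⟨P, hP1, hP2, hP3⟩ := hpath z c hz hNz
        have hlS' : ∀ x ∈ l, x ∈ S' := fun x hx => h2 x (List.mem_cons_of_mem _ hx)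
        have hlD : ∀ x ∈ l, x ∉ D := fun x hx => (Finset.mem_sdiff.1 (hlS' x hx)).2
        refine hcirc (f b) (P ++ l) ⟨?_, ?_, ?_⟩
        · intro x hx
          rw [List.mem_cons, List.mem_append] at hx
          rcases hx with hx | hx | hx
          · rw [hx]; exact hS b hb
          · exact hDS (hP1 x hx)
          · exact (Finset.mem_sdiff.1 (hlS' x hx)).1
        · unfold Pw
          rw [List.pairwise_cons, List.pairwise_append]
          refine ⟨?_, hP2, h3.2, ?_⟩
          · intro x hx
            rw [List.mem_append] at hx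
            rcases hx with hx | hx
            · have h9 := hP1 x hx
              exact ⟨fun h => hfbD (h ▸ h9), fun h => hbD (by rw [hinj _ _ h]; exact h9)⟩
            · exact h3.1 x hx
          · intro x hx y hy
            have h9 := hP1 x hx
            exact ⟨fun h => hlD y hy (h ▸ h9), fun h => hlD y hy
              (by have := hDf _ h9; rwa [h, hf] at this)⟩
        · have e1 : f b :: ((P ++ l) ++ [f b]) = f b :: (P ++ c :: r) := by
            rw [List.append_assoc, e]
          rw [e1, List.isChain_cons_split]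
          exact ⟨hP3, hcr⟩
      intro v l h
      by_cases hfb : f b ∈ v :: l
      · rw [List.mem_cons] at hfb
        rcases hfb with h9 | h9
        · rw [← h9] at h
          exact key l h
        · obtain ⟨l1, l3, rfl⟩ := List.append_of_mem h9
          exact key _ (h.rotate hf)
      by_cases hbb : b ∈ v :: l
      · have hS'f : ∀ x ∈ S', f x ∈ S' := by
          intro x hx
          rw [hS', Finset.mem_sdiff] at hx ⊢
          exact ⟨hS x hx.1, fun h => hx.2 (by have := hDf _ h; rwa [hf] at this)⟩
        have hN's : ∀ x y, N' x y → N' y x := by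
          rintro x y ⟨h2, h3 | ⟨h3, z, hz, h4⟩ | ⟨h3, z, hz, h4⟩⟩
          · exact ⟨h2.symm, Or.inl (hN _ _ h3)⟩
          · exact ⟨h2.symm, Or.inr (Or.inr ⟨h3, z, hz, hN _ _ h4⟩)⟩
          · exact ⟨h2.symm, Or.inr (Or.inl ⟨h3, z, hz, hN _ _ h4⟩)⟩
        have h' := h.rev hf hS'f hN's
        rw [List.mem_cons] at hbb
        rcases hbb with h9 | h9
        · rw [← h9] at h'
          exact key _ h'
        · have h10 : f b ∈ (l.map f).reverse := by
            rw [List.mem_reverse, List.mem_map]
            exact ⟨b, h9, rfl⟩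
          obtain ⟨l1, l3, e⟩ := List.append_of_mem h10
          rw [e] at h'
          exact key _ (h'.rotate hf)
      · refine hcirc v l ⟨fun x hx => (Finset.mem_sdiff.1 (h.1 x hx)).1, h.2.1, ?_⟩
        refine List.IsChain.imp_of_mem_imp ?_ h.2.2
        have hmem : ∀ x ∈ v :: (l ++ [v]), x ∈ v :: l := by
          intro x hx
          simp at hx ⊢
          tauto
        rintro x y hx hy ⟨h8, h9 | ⟨h9, _⟩ | ⟨h9, _⟩⟩
        · exact h9
        · exact absurd (by rw [← h9, hf]; exact hmem x hx) hfb
        · exact absurd (h9 ▸ hmem y hy) hbb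
    have hS'f : ∀ x ∈ S', f x ∈ S' := by
      intro x hx
      rw [hS', Finset.mem_sdiff] at hx ⊢
      exact ⟨hS x hx.1, fun h => hx.2 (by have := hDf _ h; rwa [hf] at this)⟩
    have hN's : ∀ x y, N' x y → N' y x := by
      rintro x y ⟨h2, h3 | ⟨h3, z, hz, h4⟩ | ⟨h3, z, hz, h4⟩⟩
      · exact ⟨h2.symm, Or.inl (hN _ _ h3)⟩
      · exact ⟨h2.symm, Or.inr (Or.inr ⟨h3, z, hz, hN _ _ h4⟩)⟩
      · exact ⟨h2.symm, Or.inr (Or.inl ⟨h3, z, hz, hN _ _ h4⟩)⟩
    obtain ⟨A', v, hA1, hA2, hA3, hA4, hA5, hA6⟩ := ih S' N' hcard ⟨b, hb'⟩ hS'f hN's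
      (fun x h => h.1 rfl) hcirc'
    have hvD : v ∉ D := (Finset.mem_sdiff.1 hA2).2
    have hA'D : ∀ x ∈ A', x ∉ D := fun x hx => (Finset.mem_sdiff.1 (hA1 hx)).2
    by_cases hbA : b ∈ A'
    · refine ⟨A' ∪ D, v, ?_, ?_, ?_, ?_, ?_, ?_⟩
      · exact Finset.union_subset (hA1.trans Finset.sdiff_subset) hDS
      · exact (Finset.mem_sdiff.1 hA2).1
      · rw [Finset.mem_union]
        tauto
      · exact Finset.mem_union_left _ hA4
      · intro x hx hne
        rw [Finset.mem_union] at hx ⊢
        rcases hx with hx | hx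
        · exact Or.inl (hA5 x hx hne)
        · exact Or.inr (hDf x hx)
      · intro x hx y hy hyA hxy
        rw [Finset.mem_union, not_or] at hyA
        rw [Finset.mem_union] at hx
        have hy' : y ∈ S' := Finset.mem_sdiff.2 ⟨hy, hyA.2⟩
        rcases hx with hx | hx
        · exact hA6 x hx y hy' hyA.1 ⟨fun h => hyA.1 (h ▸ hx), Or.inl hxy⟩
        · exact hA6 b hbA y hy' hyA.1 ⟨fun h => hyA.1 (h ▸ hbA), Or.inr (Or.inl ⟨rfl, x, hx, hxy⟩)⟩
    · refine ⟨A', v, hA1.trans Finset.sdiff_subset, (Finset.mem_sdiff.1 hA2).1, hA3, hA4, hA5, ?_⟩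
      intro x hx y hy hyA hxy
      by_cases hyD : y ∈ D
      · exact hA6 x hx b hb' hbA ⟨fun h => hbA (h ▸ hx), Or.inr (Or.inr ⟨rfl, y, hyD, hxy⟩)⟩
      · exact hA6 x hx y (Finset.mem_sdiff.2 ⟨hy, hyD⟩) hyA ⟨fun h => hyA (h ▸ hx), Or.inl hxy⟩

/-- KOTZIG: no alternating circuit, then a matching edge is a bridge. -/
theorem kotzig (hf : ∀ x, f (f x) = x) (hfx : ∀ x, f x ≠ x) {S : Finset V} (hne : S.Nonempty)
    (hS : ∀ x ∈ S, f x ∈ S) {N : V → V → Prop} (hN : ∀ x y, N x y → N y x)
    (hI : ∀ x, ¬ N x x) (hcirc : ∀ v l, ¬ Circ f N S v l) : ∃ A v, Bridge f N S A v :=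
  kotzig_aux hf hfx S.card S N le_rfl hne hS hN hI hcirc

/-- an alternating circuit (which is not a matching edge with a parallel edge) gives a second perfect
matching -/
theorem exists_pm (hf : ∀ x, f (f x) = x) (hfx : ∀ x, f x ≠ x) (hS : ∀ x ∈ S, f x ∈ S)
    (hN : ∀ x y, N x y → N y x)
    {v : V} {l : List V} (h : Circ f N S v l) (hNf : ∀ x, ¬ N x (f x)) :
    ∃ g : V → V, (∀ x ∈ S, g x ∈ S) ∧ (∀ x, g (g x) = x) ∧ (∀ x, g x = f x ∨ N x (g x)) ∧
      (∀ x, x ∉ S → g x = f x) ∧ ∃ x ∈ S, g x ≠ f x := by
  obtain ⟨h1, h2, h3⟩ := h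
  set L := v :: l with hL
  have hnd : L.Nodup := List.Pairwise.imp (fun h => h.1) h2
  have hLf : ∀ x ∈ L, f x ∉ L := by
    intro x hx hx'
    have hsym : Std.Symm (fun a b : V => a ≠ b ∧ a ≠ f b) := ⟨by
      rintro a b ⟨h4, h5⟩
      exact ⟨h4.symm, fun h6 => h5 (by rw [h6, hf])⟩⟩
    have h7 : L.Pairwise (fun a b : V => a ≠ b ∧ a ≠ f b) := h2
    exact (h7.forall hx' hx (hfx x)).2 rfl
  set σ := L.formPerm with hσ
  have hσL : ∀ x ∈ L, σ x ∈ L := fun x hx => List.formPerm_apply_mem_of_mem hx
  have hσL' : ∀ x ∈ L, σ⁻¹ x ∈ L := by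
    intro x hx
    by_contra hc
    have : σ (σ⁻¹ x) = σ⁻¹ x := List.formPerm_apply_of_notMem hc
    have h6 : σ (σ⁻¹ x) = x := σ.apply_symm_apply x
    rw [h6] at this
    exact hc (this ▸ hx)
  have hstep : ∀ x ∈ L, N (f x) (σ x) := by
    intro x hx
    obtain ⟨i, hi, rfl⟩ := List.getElem_of_mem hx
    rw [hσ, List.formPerm_apply_getElem _ hnd]
    rw [List.isChain_iff_getElem] at h3
    have e : v :: (l ++ [v]) = L ++ [v] := rfl
    have h4 := h3 i (by simp [hL] at hi ⊢; omega)
    simp only [e] at h4
    by_cases hi2 : i + 1 < L.length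
    · rw [List.getElem_append_left hi, List.getElem_append_left hi2] at h4
      simpa [Nat.mod_eq_of_lt hi2] using h4
    · have hi3 : i + 1 = L.length := by omega
      rw [List.getElem_append_left hi, List.getElem_append_right (by omega)] at h4
      have : (i + 1) % L.length = 0 := by rw [hi3, Nat.mod_self]
      simp only [this]
      have h5 : L[0] = v := rfl
      rw [h5]
      simpa using h4
  have hinv : ∀ x, σ (σ⁻¹ x) = x := fun x => σ.apply_symm_apply x
  have hinv' : ∀ x, σ⁻¹ (σ x) = x := fun x => σ.symm_apply_apply x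
  refine ⟨fun x => if x ∈ L then f (σ⁻¹ x) else if f x ∈ L then σ (f x) else f x, ?_, ?_, ?_, ?_, ?_⟩
  · intro x hx
    dsimp only
    split_ifs with h4 h5
    · exact hS _ (h1 _ (hσL' x h4))
    · exact h1 _ (hσL _ h5)
    · exact hS x hx
  · intro x
    dsimp only
    by_cases h4 : x ∈ L
    · rw [if_pos h4, if_neg (hLf _ (hσL' x h4)), hf, if_pos (hσL' x h4), hinv]
    · rw [if_neg h4]
      by_cases h5 : f x ∈ L
      · rw [if_pos h5, if_pos (hσL _ h5), hinv', hf]
      · rw [if_neg h5, if_neg h5, hf, if_neg h4]
  · intro x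
    dsimp only
    by_cases h4 : x ∈ L
    · rw [if_pos h4]
      right
      have := hstep _ (hσL' x h4)
      rw [hinv] at this
      exact hN _ _ this
    · rw [if_neg h4]
      by_cases h5 : f x ∈ L
      · rw [if_pos h5]
        right
        have := hstep _ h5
        rwa [hf] at this
      · rw [if_neg h5]
        exact Or.inl rfl
  · intro x hx
    dsimp only
    have h4 : x ∉ L := fun h => hx (h1 x h)
    have h5 : f x ∉ L := fun h => hx (by have := hS _ (h1 _ h); rwa [hf] at this)
    rw [if_neg h4, if_neg h5]
  · have hv : v ∈ L := by simp [hL]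
    refine ⟨f v, hS v (h1 v hv), ?_⟩
    dsimp only
    rw [if_neg (hLf v hv), hf, if_pos hv]
    intro h4
    have h5 := hstep v hv
    rw [h4] at h5
    exact hNf v (hN _ _ h5)

/-- KOTZIG, perfect matching form: `f` is the only perfect matching of `f ∪ N` on `S`. -/
theorem kotzig_pm (hf : ∀ x, f (f x) = x) (hfx : ∀ x, f x ≠ x) {S : Finset V} (hne : S.Nonempty)
    (hS : ∀ x ∈ S, f x ∈ S) {N : V → V → Prop} (hN : ∀ x y, N x y → N y x)
    (hI : ∀ x, ¬ N x x) (hNf : ∀ x, ¬ N x (f x))
    (huniq : ∀ g : V → V, (∀ x ∈ S, g x ∈ S) → (∀ x, g (g x) = x) →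
      (∀ x, g x = f x ∨ N x (g x)) → (∀ x, x ∉ S → g x = f x) → ∀ x ∈ S, g x = f x) :
    ∃ A v, Bridge f N S A v := by
  refine kotzig hf hfx hne hS hN hI ?_
  intro v l h
  obtain ⟨g, h1, h2, h3, h4, x, hx, h5⟩ := exists_pm hf hfx hS hN h hNf
  exact h5 (huniq g h1 h2 h3 h4 x hx)

end Pool.Agent.H55.Kz
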