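import Mathlib

set_option autoImplicit false
set_option linter.unusedSectionVars false

/-!
P4-free 0/1 matrices: Seinsche's splitting and the root lemma (MP_a46c6f_co).
-/

namespace Pool.Agent.H55.Kz

variable {X : Type*} [DecidableEq X]

/-- induced path `a-b-c-d` -/
def IsP4 (M : X → X → Bool) (a b c d : X) : Prop :=
  a ≠ b ∧ a ≠ c ∧ a ≠ d ∧ b ≠ c ∧ b ≠ d ∧ c ≠ d ∧
    M a b = true ∧ M b c = true ∧ M c d = true ∧ M a c = false ∧ M a d = false ∧ M b d = false

def NoP4 (M : X → X → Bool) (D : Finset X) : Prop :=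
  ∀ a ∈ D, ∀ b ∈ D, ∀ c ∈ D, ∀ d ∈ D, ¬ IsP4 M a b c d

/-- complement -/
def co (M : X → X → Bool) : X → X → Bool := fun x y => !(M x y)

lemma co_symm {M : X → X → Bool} (hM : ∀ x y, M x y = M y x) : ∀ x y, co M x y = co M y x :=
  fun x y => by simp [co, hM x y]

lemma IsP4.co {M : X → X → Bool} (hM : ∀ x y, M x y = M y x) {a b c d : X}
    (h : IsP4 M a b c d) : IsP4 (co M) b d a c := by
  obtain ⟨h1, h2, h3, h4, h5, h6, h7, h8, h9, h10, h11, h12⟩ := h
  refine ⟨h5, h1.symm, h4, h3.symm, h6.symm, h2, ?_, ?_, ?_, ?_, ?_, ?_⟩ <;>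
    simp only [Pool.Agent.H55.Kz.co]
  · simp [h12]
  · simp [hM d a, h11]
  · simp [h10]
  · simp [hM b a, h7]
  · simp [h8]
  · simp [hM d c, h9]

lemma co_co (M : X → X → Bool) : co (co M) = M := by
  funext x y
  simp [co]

lemma NoP4.co {M : X → X → Bool} (hM : ∀ x y, M x y = M y x) {D : Finset X} (h : NoP4 M D) :
    NoP4 (co M) D := by
  intro a ha b hb c hc d hd hp
  have := hp.co (co_symm hM)
  rw [co_co] at this
  exact h _ hb _ hd _ ha _ hc this

lemma NoP4.mono {M : X → X → Bool} {D D' : Finset X} (h : NoP4 M D) (hs : D' ⊆ D) : NoP4 M D' :=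
  fun a ha b hb c hc d hd => h a (hs ha) b (hs hb) c (hs hc) d (hs hd)

/-- splitting of `D` into two parts with constant entries between them -/
def Split (M : X → X → Bool) (D : Finset X) (s : Bool) : Prop :=
  ∃ A B : Finset X, A.Nonempty ∧ B.Nonempty ∧ Disjoint A B ∧ A ∪ B = D ∧
    ∀ x ∈ A, ∀ y ∈ B, M x y = s

lemma Split.co {M : X → X → Bool} {D : Finset X} {s : Bool} (h : Split M D s) :
    Split (co M) D (!s) := by
  obtain ⟨A, B, h1, h2, h3, h4, h5⟩ := h
  exact ⟨A, B, h1, h2, h3, h4, fun x hx y hy => by simp [Pool.Agent.H55.Kz.co, h5 x hx y hy]⟩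

/-- a set closed to the outside -/
lemma split_of_closed {M : X → X → Bool} (hM : ∀ x y, M x y = M y x) {D K : Finset X} {s : Bool}
    (hK : K ⊆ D) (hK1 : K.Nonempty) (hK2 : ∃ x ∈ D, x ∉ K)
    (h : ∀ x ∈ K, ∀ y ∈ D, y ∉ K → M x y = s) : Split M D s := by
  obtain ⟨x, hx, hx'⟩ := hK2
  refine ⟨K, D \ K, hK1, ⟨x, Finset.mem_sdiff.2 ⟨hx, hx'⟩⟩, Finset.disjoint_sdiff,
    Finset.union_sdiff_of_subset hK, ?_⟩
  intro a ha b hb
  rw [Finset.mem_sdiff] at hb
  exact h a ha b hb.1 hb.2

lemma seinsche_step {M : X → X → Bool} (hM : ∀ x y, M x y = M y x) {D : Finset X} {v : X}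
    (hv : v ∈ D) (hD : NoP4 M D) (h : Split M (D.erase v) false) : ∃ s, Split M D s := by
  obtain ⟨A, B, hA, hB, hAB, hU, h⟩ := h
  by_cases hall : ∀ x ∈ D.erase v, M v x = true
  · refine ⟨true, split_of_closed hM (K := {v}) (by simpa using hv) (by simp) ?_ ?_⟩
    · obtain ⟨a, ha⟩ := hA
      have : a ∈ D.erase v := hU ▸ Finset.mem_union_left _ ha
      rw [Finset.mem_erase] at this
      exact ⟨a, this.2, by simpa using this.1⟩
    · intro x hx y hy hy'
      rw [Finset.mem_singleton] at hx hy'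
      rw [hx]
      exact hall y (Finset.mem_erase.2 ⟨hy', hy⟩)
  push Not at hall
  obtain ⟨x, hx, hvx⟩ := hall
  have hvx : M v x = false := by simpa using hvx
  have key : ∀ A B : Finset X, B.Nonempty → Disjoint A B → A ∪ B = D.erase v →
      (∀ x ∈ A, ∀ y ∈ B, M x y = false) → x ∈ A → ∃ s, Split M D s := by
    intro A B hB hAB hU h hxA
    have hAD : ∀ y ∈ A, y ∈ D ∧ y ≠ v := by
      intro y hy
      have : y ∈ D.erase v := hU ▸ Finset.mem_union_left _ hy
      rw [Finset.mem_erase] at this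
      exact ⟨this.2, this.1⟩
    have hBD : ∀ y ∈ B, y ∈ D ∧ y ≠ v := by
      intro y hy
      have : y ∈ D.erase v := hU ▸ Finset.mem_union_right _ hy
      rw [Finset.mem_erase] at this
      exact ⟨this.2, this.1⟩
    by_cases hvB : ∀ y ∈ B, M v y = false
    · refine ⟨false, split_of_closed hM (K := B) (fun y hy => (hBD y hy).1) hB
        ⟨v, hv, fun hvB' => (hBD v hvB').2 rfl⟩ ?_⟩
      intro y hy z hz hz'
      by_cases hzv : z = v
      · rw [hzv, hM]
        exact hvB y hy
      · have : z ∈ A ∪ B := hU ▸ Finset.mem_erase.2 ⟨hzv, hz⟩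
        rw [Finset.mem_union] at this
        rw [hM]
        exact h z (this.resolve_right hz') y hy
    push Not at hvB
    obtain ⟨b, hb, hvb⟩ := hvB
    have hvb : M v b = true := by simpa using hvb
    -- the smallest closed set containing x
    let P : Finset X → Prop := fun K => x ∈ K ∧ K ⊆ A ∧ ∀ y ∈ K, ∀ z ∈ D.erase v, z ∉ K →
      M y z = false
    have hPA : P A := by
      refine ⟨hxA, le_rfl, ?_⟩
      intro y hy z hz hz'
      have : z ∈ A ∪ B := hU ▸ hz
      rw [Finset.mem_union] at this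
      exact h y hy z (this.resolve_left hz')
    classical
    obtain ⟨K, hK, hmin⟩ : ∃ K, P K ∧ ∀ K', P K' → K.card ≤ K'.card := by
      have hne : (A.powerset.filter P).Nonempty :=
        ⟨A, Finset.mem_filter.2 ⟨Finset.mem_powerset.2 le_rfl, hPA⟩⟩
      obtain ⟨K, hK, hmin⟩ := Finset.exists_min_image _ Finset.card hne
      rw [Finset.mem_filter] at hK
      refine ⟨K, hK.2, fun K' hK' => hmin K' ?_⟩
      rw [Finset.mem_filter, Finset.mem_powerset]
      exact ⟨hK'.2.1, hK'⟩
    obtain ⟨hxK, hKA, hKc⟩ := hK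
    by_cases hvK : ∀ y ∈ K, M v y = false
    · refine ⟨false, split_of_closed hM (K := K) (fun y hy => (hAD y (hKA hy)).1) ⟨x, hxK⟩
        ⟨v, hv, fun hvK' => (hAD v (hKA hvK')).2 rfl⟩ ?_⟩
      intro y hy z hz hz'
      by_cases hzv : z = v
      · rw [hzv, hM]
        exact hvK y hy
      · exact hKc y hy z (Finset.mem_erase.2 ⟨hzv, hz⟩) hz'
    push Not at hvK
    obtain ⟨y0, hy0, hvy0⟩ := hvK
    have hvy0 : M v y0 = true := by simpa using hvy0
    -- an edge between the two parts of K
    have hedge : ∃ y ∈ K, M v y = false ∧ ∃ z ∈ K, M v z = true ∧ M y z = true := by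
      by_contra hc
      push Not at hc
      have hP0 : P (K.filter (fun y => M v y = false)) := by
        refine ⟨Finset.mem_filter.2 ⟨hxK, hvx⟩, (Finset.filter_subset _ _).trans hKA, ?_⟩
        intro y hy z hz hz'
        rw [Finset.mem_filter] at hy hz'
        by_cases hzK : z ∈ K
        · have h1 : M v z = true := by
            by_contra h2
            exact hz' ⟨hzK, by simpa using h2⟩
          simpa using hc y hy.1 hy.2 z hzK h1
        · exact hKc y hy.1 z hz hzK
      have h1 := hmin _ hP0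
      have h2 : (K.filter (fun y => M v y = false)).card < K.card := by
        apply Finset.card_lt_card
        rw [Finset.ssubset_iff_of_subset (Finset.filter_subset _ _)]
        exact ⟨y0, hy0, by simp [hvy0]⟩
      omega
    obtain ⟨y, hy, hvy, z, hz, hvz, hyz⟩ := hedge
    exfalso
    refine hD y (hAD y (hKA hy)).1 z (hAD z (hKA hz)).1 v hv b (hBD b hb).1 ?_
    refine ⟨?_, (hAD y (hKA hy)).2, ?_, (hAD z (hKA hz)).2, ?_, (hBD b hb).2.symm, hyz, ?_, hvb,
      ?_, h y (hKA hy) b hb, h z (hKA hz) b hb⟩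
    · rintro rfl
      rw [hvy] at hvz
      simp at hvz
    · rintro rfl
      exact Finset.disjoint_left.1 hAB (hKA hy) hb
    · rintro rfl
      exact Finset.disjoint_left.1 hAB (hKA hz) hb
    · rw [hM]; exact hvz
    · rw [hM]; exact hvy
  have hx' : x ∈ A ∪ B := hU ▸ hx
  rw [Finset.mem_union] at hx'
  rcases hx' with hx' | hx'
  · exact key A B hB hAB hU h hx'
  · exact key B A hA hAB.symm (by rw [Finset.union_comm]; exact hU)
      (fun y hy z hz => by rw [hM]; exact h z hz y hy) hx'

/-- SEINSCHE -/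
theorem seinsche : ∀ (n : ℕ) (M : X → X → Bool) (D : Finset X), D.card = n → 2 ≤ n →
    (∀ x y, M x y = M y x) → NoP4 M D → ∃ s, Split M D s := by
  intro n
  induction n with
  | zero => intro M D _ h2; omega
  | succ n ih =>
    intro M D hc h2 hM hD
    obtain ⟨v, hv⟩ : D.Nonempty := Finset.card_pos.1 (by omega)
    have hc' : (D.erase v).card = n := by rw [Finset.card_erase_of_mem hv]; omega
    by_cases hn : n = 1
    · obtain ⟨w, hw⟩ := Finset.card_eq_one.1 (hc'.trans hn)
      refine ⟨M v w, {v}, {w}, by simp, by simp, ?_, ?_, ?_⟩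
      · rw [Finset.disjoint_singleton]
        rintro rfl
        have : v ∈ D.erase v := by rw [hw]; simp
        simp at this
      · rw [← hw, Finset.singleton_union, Finset.insert_erase hv]
      · intro x hx y hy
        rw [Finset.mem_singleton] at hx hy
        rw [hx, hy]
    · obtain ⟨s, hs⟩ := ih M (D.erase v) hc' (by omega) hM (hD.mono (Finset.erase_subset _ _))
      cases s with
      | false => exact seinsche_step hM hv hD hs
      | true =>
        obtain ⟨s, h3⟩ := seinsche_step (co_symm hM) hv (hD.co hM) (by simpa using hs.co)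
        exact ⟨!s, by have := h3.co; rwa [co_co] at this⟩

/-- midpoints inside `D` -/
def PairsIn (M : X → X → Bool) (D : Finset X) : Prop :=
  ∀ u ∈ D, ∀ v ∈ D, u ≠ v → M u u = M v v → M u v = !(M u u) →
    ∃ g ∈ D, M g g = !(M u u) ∧ M g u = !(M u u) ∧ M g v = !(M u u) ∧
      ∀ y, M u y = M v y → M g y = M u y

lemma PairsIn.co {M : X → X → Bool} {D : Finset X} (h : PairsIn M D) : PairsIn (co M) D := by
  intro u hu v hv hne h1 h2
  simp only [Pool.Agent.H55.Kz.co] at h1 h2 ⊢
  obtain ⟨g, hg, h3, h4, h5, h6⟩ := h u hu v hv hne (by simpa using h1) (by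
    have : (!!(M u v)) = (!!!(M u u)) := by rw [h2]
    simpa using this)
  refine ⟨g, hg, by rw [h3], by rw [h4], by rw [h5], fun y hy => ?_⟩
  rw [h6 y (by simpa using hy)]

/-- ROOT LEMMA, disconnected case -/
lemma root_step {M : X → X → Bool} (hM : ∀ x y, M x y = M y x) {D : Finset X}
    (hP : PairsIn M D) (h : Split M D false)
    (ih : ∀ D' : Finset X, D' ⊂ D → D'.Nonempty → PairsIn M D' →
      ∃ r ∈ D', ∀ x ∈ D', M r x = M r r) : ∃ r ∈ D, ∀ x ∈ D, M r x = M r r := by
  obtain ⟨A, B, hA, hB, hAB, hU, h⟩ := h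
  by_cases hiso : ∃ r ∈ D, ∀ x ∈ D, M r x = M r r
  · exact hiso
  exfalso
  have hsub : ∀ A B : Finset X, A.Nonempty → B.Nonempty → Disjoint A B → A ∪ B = D →
      (∀ x ∈ A, ∀ y ∈ B, M x y = false) → ∃ r ∈ A, M r r = true ∧ ∀ x ∈ A, M r x = true := by
    intro A B hA hB hAB hU h
    have hAD : A ⊆ D := hU ▸ Finset.subset_union_left
    have hmemD : ∀ x ∈ D, x ∈ A ∨ x ∈ B := by
      intro x hx
      rw [← hU, Finset.mem_union] at hx
      exact hx
    have hPA : PairsIn M A := by
      intro u hu v hv hne h1 h2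
      obtain ⟨g, hg, h3, h4, h5, h6⟩ := hP u (hAD hu) v (hAD hv) hne h1 h2
      rcases hmemD g hg with hgA | hgB
      · exact ⟨g, hgA, h3, h4, h5, h6⟩
      · exfalso
        have h7 : M g u = false := by rw [hM]; exact h u hu g hgB
        have h8 : M g g = false := by rw [h3, ← h4, h7]
        refine hiso ⟨g, hg, fun x hx => ?_⟩
        rw [h8]
        rcases hmemD x hx with hxA | hxB
        · rw [hM]; exact h x hxA g hgB
        · rw [h6 x (by rw [h u hu x hxB, h v hv x hxB])]
          exact h u hu x hxB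
    have hss : A ⊂ D := by
      rw [Finset.ssubset_iff_of_subset hAD]
      obtain ⟨b, hb⟩ := hB
      exact ⟨b, hU ▸ Finset.mem_union_right _ hb, fun hbA => Finset.disjoint_left.1 hAB hbA hb⟩
    obtain ⟨r, hr, hr'⟩ := ih A hss hA hPA
    refine ⟨r, hr, ?_⟩
    cases hrr : M r r with
    | true => exact ⟨rfl, fun x hx => by rw [hr' x hx, hrr]⟩
    | false =>
      exfalso
      refine hiso ⟨r, hAD hr, fun x hx => ?_⟩
      rcases hmemD x hx with hxA | hxB
      · exact hr' x hxA
      · rw [hrr]; exact h r hr x hxB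
  obtain ⟨r, hr, hrr, hr'⟩ := hsub A B hA hB hAB hU h
  obtain ⟨q, hq, hqq, hq'⟩ := hsub B A hB hA hAB.symm (by rw [Finset.union_comm]; exact hU)
    (fun y hy z hz => by rw [hM]; exact h z hz y hy)
  have hrq : M r q = false := h r hr q hq
  obtain ⟨g, hg, h3, h4, h5, h6⟩ := hP r (hU ▸ Finset.mem_union_left _ hr) q
    (hU ▸ Finset.mem_union_right _ hq) (by rintro rfl; exact Finset.disjoint_left.1 hAB hr hq)
    (by rw [hrr, hqq]) (by rw [hrq, hrr]; rfl)
  rw [hrr] at h4 h5
  rw [← hU, Finset.mem_union] at hg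
  rcases hg with hg | hg
  · have := hr' g hg
    rw [hM, h4] at this
    simp at this
  · have := hq' g hg
    rw [hM, h5] at this
    simp at this

/-- ROOT LEMMA -/
theorem root : ∀ (n : ℕ) (M : X → X → Bool) (D : Finset X), D.card = n →
    (∀ x y, M x y = M y x) → D.Nonempty → PairsIn M D → NoP4 M D →
    ∃ r ∈ D, ∀ x ∈ D, M r x = M r r := by
  intro n
  induction n using Nat.strong_induction_on with
  | _ n ih =>
    intro M D hc hM hne hP hD
    by_cases hn : n ≤ 1
    · have h1 : D.card = 1 := by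
        have := Finset.card_pos.2 hne
        omega
      obtain ⟨r, rfl⟩ := Finset.card_eq_one.1 h1
      exact ⟨r, by simp, fun x hx => by rw [Finset.mem_singleton.1 hx]⟩
    obtain ⟨s, hs⟩ := seinsche n M D hc (by omega) hM hD
    cases s with
    | false =>
      refine root_step hM hP hs ?_
      intro D' hD' hne' hP'
      exact ih D'.card (by rw [← hc]; exact Finset.card_lt_card hD') M D' rfl hM hne' hP'
        (hD.mono hD'.1)
    | true =>
      obtain ⟨r, hr, hr'⟩ := root_step (co_symm hM) hP.co (by simpa using hs.co) (by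
        intro D' hD' hne' hP'
        have hP2 : PairsIn M D' := by have := hP'.co; rwa [co_co] at this
        obtain ⟨r, hr, hr'⟩ := ih D'.card (by rw [← hc]; exact Finset.card_lt_card hD') M D' rfl hM
          hne' hP2 (hD.mono hD'.1)
        exact ⟨r, hr, fun x hx => by simp [co, hr' x hx]⟩)
      exact ⟨r, hr, fun x hx => by have := hr' x hx; simpa [co] using this⟩

end Pool.Agent.H55.Kz
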