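import Mathlib
import Pool.Agent.H55.Kz.Root
import Pool.Agent.H17.P3.Defs

set_option autoImplicit false
set_option linter.unusedSectionVars false

/-!
The matrix statement (P3): a symmetric 0/1 matrix with midpoints and split P4's has no induced P4
(minimal cell, roots, the P4 with the smallest degree sum; MP_a46c6f_co).
-/

namespace Pool.Agent.H55.Kz

variable {X : Type*} [DecidableEq X]

lemma mkP4 {M : X → X → Bool} (hM : ∀ x y, M x y = M y x) {a b c d : X} (h1 : M a b = true)
    (h2 : M b c = true) (h3 : M c d = true) (h4 : M a c = false) (h5 : M a d = false)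
    (h6 : M b d = false) : IsP4 M a b c d := by
  refine ⟨?_, ?_, ?_, ?_, ?_, ?_, h1, h2, h3, h4, h5, h6⟩
  · rintro rfl; rw [h4] at h2; simp at h2
  · rintro rfl; rw [h5] at h3; simp at h3
  · rintro rfl; rw [hM, h4] at h3; simp at h3
  · rintro rfl; rw [h6] at h3; simp at h3
  · rintro rfl; rw [h5] at h1; simp at h1
  · rintro rfl; rw [h6] at h2; simp at h2

/-- what a minimal cell gives -/
structure Pack (M : X → X → Bool) (D : Finset X) : Prop where
  symm : ∀ x y, M x y = M y x
  pairs : PairsIn M D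
  min : ∀ y, ∀ a ∈ D, ∀ b ∈ D, ∀ c ∈ D, ∀ d ∈ D, IsP4 M a b c d → ∀ s, M y a = s → M y b = s →
    M y c = s → M y d = s → ∀ x ∈ D, M y x = s
  root : ∀ (p q r : X) (s t u : Bool), (∃ x ∈ D, M x p = s ∧ M x q = t ∧ M x r = u) →
    (∃ x ∈ D, ¬ (M x p = s ∧ M x q = t ∧ M x r = u)) →
    ∃ z ∈ D, (M z p = s ∧ M z q = t ∧ M z r = u) ∧
      ∀ x ∈ D, M x p = s → M x q = t → M x r = u → M z x = M z z

lemma Pack.co {M : X → X → Bool} {D : Finset X} (h : Pack M D) : Pack (co M) D := by
  have hn : ∀ (b s : Bool), (!b) = s ↔ b = !s := by decide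
  refine ⟨co_symm h.symm, h.pairs.co, ?_, ?_⟩
  · intro y a ha b hb c hc d hd hp s h1 h2 h3 h4 x hx
    have hp' := hp.co (co_symm h.symm)
    rw [co_co] at hp'
    simp only [Pool.Agent.H55.Kz.co, hn] at h1 h2 h3 h4 ⊢
    exact h.min y b hb d hd a ha c hc hp' _ h2 h4 h1 h3 x hx
  · intro p q r s t u h1 h2
    simp only [Pool.Agent.H55.Kz.co, hn] at h1 h2 ⊢
    obtain ⟨z, hz, h3, h4⟩ := h.root p q r _ _ _ h1 h2
    refine ⟨z, hz, h3, fun x hx h5 h6 h7 => ?_⟩
    rw [h4 x hx h5 h6 h7, Bool.not_not]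

section

variable {M : X → X → Bool} {D : Finset X}

/-- (R1) -/
lemma Pack.r1 (h : Pack M D) {y : X} (hy : y ∈ D) (s : Bool) (h1 : ∃ x ∈ D, M y x = s)
    (h2 : ∃ x ∈ D, M y x = !s) :
    ∃ r ∈ D, M y r = s ∧ M r r = s ∧ ∀ x ∈ D, M y x = s → M r x = s := by
  have hM := h.symm
  by_cases hyy : M y y = s
  · exact ⟨y, hy, hyy, hyy, fun x _ hx => hx⟩
  have hyy : M y y = !s := by
    cases s <;> simpa using hyy
  obtain ⟨x1, hx1, hx1'⟩ := h1
  obtain ⟨x2, hx2, hx2'⟩ := h2
  obtain ⟨r, hr, ⟨h3, _, _⟩, h4⟩ := h.root y y y s s s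
    ⟨x1, hx1, by rw [hM, hx1'], by rw [hM, hx1'], by rw [hM, hx1']⟩
    ⟨x2, hx2, fun hc => by
      have := hc.1
      rw [hM, hx2'] at this
      cases s <;> simp at this⟩
  have h4' : ∀ x ∈ D, M y x = s → M r x = M r r := fun x hx hyx => by
    have e : M x y = s := by rw [hM]; exact hyx
    exact h4 x hx e e e
  by_cases hrr : M r r = s
  · exact ⟨r, hr, by rw [hM]; exact h3, hrr, fun x hx hyx => by rw [h4' x hx hyx, hrr]⟩
  exfalso
  have hrr : M r r = !s := by
    cases s <;> simpa using hrr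
  have hne : y ≠ r := by
    rintro rfl
    rw [hyy] at h3
    cases s <;> simp at h3
  obtain ⟨g, hg, g1, g2, g3, _⟩ := h.pairs y hy r hr hne (by rw [hyy, hrr]) (by
    rw [hM, h3, hyy, Bool.not_not])
  rw [hyy, Bool.not_not] at g2 g3
  have h5 := h4' g hg (by rw [hM, g2])
  rw [hM, g3, hrr] at h5
  cases s <;> simp at h5

/-- (i): `{x ~ c, x ≁ a, b}` has a root of type 0 -/
lemma Pack.i (h : Pack M D) {a b c d : X} (ha : a ∈ D) (hb : b ∈ D) (hc : c ∈ D) (hd : d ∈ D)
    (hp : IsP4 M a b c d) : ∃ r ∈ D, M r c = true ∧ M r a = false ∧ M r b = false ∧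
      M r r = false ∧ ∀ x ∈ D, M x c = true → M x a = false → M x b = false → M r x = false := by
  have hM := h.symm
  obtain ⟨-, -, -, -, -, -, hab, hbc, hcd, hac, had, hbd⟩ := hp
  obtain ⟨r, hr, ⟨r1, r2, r3⟩, r4⟩ := h.root c a b true false false
    ⟨d, hd, by rw [hM, hcd], by rw [hM, had], by rw [hM, hbd]⟩
    ⟨b, hb, fun hc => by have := hc.2.1; rw [hM, hab] at this; simp at this⟩
  cases hrr : M r r with
  | false => exact ⟨r, hr, r1, r2, r3, hrr, fun x hx h1 h2 h3 => by rw [r4 x hx h1 h2 h3, hrr]⟩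
  | true =>
    exfalso
    rw [hrr] at r4
    have hcr : M c r = true := by rw [hM, r1]
    have har : M a r = false := by rw [hM, r2]
    have hbr : M b r = false := by rw [hM, r3]
    have hpr : IsP4 M a b c r := mkP4 hM hab hbc hcr hac har hbr
    by_cases hz : ∃ z ∈ D, ∀ x ∈ D, M z x = false
    · -- case B: no all-ones vertex
      obtain ⟨z, hz, hz'⟩ := hz
      have hno : ∀ o ∈ D, ¬ ∀ x ∈ D, M o x = true := by
        intro o ho hc
        have h1 := hz' o ho
        rw [hM, hc z hz] at h1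
        simp at h1
      obtain ⟨q, hq, ⟨q1, q2, q3⟩, q4⟩ := h.root a c r true true false
        ⟨b, hb, by rw [hM, hab], hbc, hbr⟩
        ⟨a, ha, fun hc => by have := hc.2.1; rw [hac] at this; simp at this⟩
      have haq : M a q = true := by rw [hM, q1]
      cases hqq : M q q with
      | false =>
        rw [hqq] at q4
        obtain ⟨o, ho, o1, o2, o3⟩ := h.r1 hq true ⟨a, ha, q1⟩ ⟨r, hr, q3⟩
        have hor : M o r = true := by
          by_contra hc1
          have hc1 : M o r = false := by simpa using hc1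
          have := q4 o ho (o3 a ha q1) (o3 c hc q2) hc1
          rw [o1] at this
          simp at this
        exact hno o ho (h.min o a ha q hq c hc r hr (mkP4 hM haq q2 hcr hac har q3) true
          (o3 a ha q1) (by rw [hM, o1]) (o3 c hc q2) hor)
      | true =>
        rw [hqq] at q4
        have hqr : q ≠ r := by
          rintro rfl
          rw [hrr] at q3
          simp at q3
        obtain ⟨g, hg, g1, g2, g3, g4⟩ := h.pairs q hq r hr hqr (by rw [hqq, hrr]) (by
          rw [q3, hqq]; rfl)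
        rw [hqq] at g1 g2 g3
        have hgc : M g c = true := by rw [g4 c (by rw [q2, r1]), q2]
        have hga : M g a = false := by
          by_contra hc
          have hc : M g a = true := by simpa using hc
          have := q4 g hg hc hgc g3
          rw [hM, g2] at this
          simp at this
        have hgb : M g b = true := by
          by_contra hc
          have hc : M g b = false := by simpa using hc
          have := r4 g hg hgc hga hc
          rw [hM, g3] at this
          simp at this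
        refine hno b hb (h.min b a ha q hq c hc g hg (mkP4 hM haq q2 (by rw [hM, hgc]) hac
          (by rw [hM, hga]) (by rw [hM]; exact g2)) true (by rw [hM, hab]) ?_ hbc
          (by rw [hM, hgb]))
        rw [hM]
        exact q4 b hb (by rw [hM, hab]) hbc hbr
    · -- case A: no zero vertex
      obtain ⟨o, ho, o1, o2, o3⟩ := h.r1 hr false ⟨a, ha, r2⟩ ⟨c, hc, r1⟩
      have hoc : M o c = false := by
        by_contra hc'
        have hc' : M o c = true := by simpa using hc'
        have := r4 o ho hc' (o3 a ha r2) (o3 b hb r3)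
        rw [o1] at this
        simp at this
      exact hz ⟨o, ho, h.min o a ha b hb c hc r hr hpr false (o3 a ha r2) (o3 b hb r3) hoc
        (by rw [hM, o1])⟩

/-- (i) reversed: `{x ~ b, x ≁ c, d}` has a root of type 0 -/
lemma IsP4.rev (hM : ∀ x y, M x y = M y x) {a b c d : X} (hp : IsP4 M a b c d) :
    IsP4 M d c b a := by
  obtain ⟨-, -, -, -, -, -, hab, hbc, hcd, hac, had, hbd⟩ := hp
  exact mkP4 hM (by rw [hM, hcd]) (by rw [hM, hbc]) (by rw [hM, hab]) (by rw [hM, hbd])
    (by rw [hM, had]) (by rw [hM, hac])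

/-- (ii): the row of a type 0 root of `{x ~ c, x ≁ a, b}` is contained in the row of `d` -/
lemma Pack.ii (h : Pack M D) {a b c d r : X} (ha : a ∈ D) (hb : b ∈ D) (hc : c ∈ D) (hd : d ∈ D)
    (hp : IsP4 M a b c d) (hr : r ∈ D) (r1 : M r c = true) (r2 : M r a = false)
    (r3 : M r b = false) (r4 : ∀ x ∈ D, M x c = true → M x a = false → M x b = false → M r x = false) :
    ∀ w ∈ D, M r w = true → M d w = true := by
  have hM := h.symm
  intro w hw hrw
  by_contra hdw
  have hdw : M d w = false := by simpa using hdw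
  have hp' := hp
  obtain ⟨-, -, -, -, -, -, hab, hbc, hcd, hac, had, hbd⟩ := hp
  have hdc : M d c = true := by rw [hM, hcd]
  have hda : M d a = false := by rw [hM, had]
  have hdb : M d b = false := by rw [hM, hbd]
  have hrd : M r d = false := r4 d hd hdc hda hdb
  have hdr : M d r = false := by rw [hM, hrd]
  have har : M a r = false := by rw [hM, r2]
  have hbr : M b r = false := by rw [hM, r3]
  have hcr : M c r = true := by rw [hM, r1]
  have hwr : M w r = true := by rw [hM, hrw]
  have hwd : M w d = false := by rw [hM, hdw]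
  have hba : M b a = true := by rw [hM, hab]
  have hpr : IsP4 M a b c r := mkP4 hM hab hbc hcr hac har hbr
  -- d does not miss a P4
  have hmiss : ∀ p ∈ D, ∀ q ∈ D, ∀ s ∈ D, ∀ t ∈ D, IsP4 M p q s t → M d p = false →
      M d q = false → M d s = false → M d t = false → False := by
    intro p hp q hq s hs t ht hP h1 h2 h3 h4
    have := h.min d p hp q hq s hs t ht hP false h1 h2 h3 h4 c hc
    rw [hdc] at this
    simp at this
  cases hwa : M w a with
  | true =>
    have haw : M a w = true := by rw [hM, hwa]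
    cases hwb : M w b with
    | true =>
      have hbw : M b w = true := by rw [hM, hwb]
      cases hwc : M w c with
      | true =>
        have := h.min w a ha b hb c hc r hr hpr true hwa hwb hwc hwr d hd
        rw [hwd] at this
        simp at this
      | false =>
        obtain ⟨α, hα, a1, a2, a3, a4, a5⟩ := h.i hd hc hb ha (hp'.rev hM)
        have haa : M α a = false := a5 a ha hab (by rw [had]) hac
        have haw' : M α w = false := a5 w hw hwb hwd hwc
        have hcw : M c w = false := by rw [hM, hwc]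
        cases har' : M α r with
        | false =>
          have := h.min α a ha w hw r hr c hc (mkP4 hM haw hwr r1 har hac hwc) false haa haw'
            har' a3 b hb
          rw [a1] at this
          simp at this
        | true =>
          exact hmiss a ha w hw r hr α hα (mkP4 hM haw hwr (by rw [hM, har']) har
            (by rw [hM, haa]) (by rw [hM, haw'])) hda hdw hdr (by rw [hM, a2])
    | false =>
      have hbw : M b w = false := by rw [hM, hwb]
      exact hmiss b hb a ha w hw r hr (mkP4 hM hba haw hwr hbw hbr har) hdb hda hdw hdr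
  | false =>
    have haw : M a w = false := by rw [hM, hwa]
    cases hwb : M w b with
    | true =>
      have hbw : M b w = true := by rw [hM, hwb]
      exact hmiss a ha b hb w hw r hr (mkP4 hM hab hbw hwr haw har hbr) hda hdb hdw hdr
    | false =>
      cases hwc : M w c with
      | true =>
        have := r4 w hw hwc hwa hwb
        rw [hrw] at this
        simp at this
      | false =>
        have := h.min w a ha b hb c hc d hd hp' false hwa hwb hwc hwd r hr
        rw [hwr] at this
        simp at this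

/-- numbers of 1's and 0's of a row in `D` -/
def dg (M : X → X → Bool) (D : Finset X) (x : X) (s : Bool) : ℕ :=
  (D.filter (fun y => M x y = s)).card

/-- the sum which is minimised -/
def psi (M : X → X → Bool) (D : Finset X) (a b c d : X) : ℕ :=
  dg M D a true + dg M D d true + dg M D b false + dg M D c false

lemma dg_co (x : X) (s : Bool) : dg (co M) D x s = dg M D x (!s) := by
  unfold dg
  congr 1
  apply Finset.filter_congr
  intro y _
  simp only [co]
  cases M x y <;> cases s <;> simp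

lemma psi_co (a b c d : X) : psi (co M) D b d a c = psi M D a b c d := by
  unfold psi
  simp only [dg_co, Bool.not_true, Bool.not_false]
  omega

lemma psi_rev (a b c d : X) : psi M D d c b a = psi M D a b c d := by
  unfold psi
  omega

/-- a P4 in `D` with the smallest sum -/
def Best (M : X → X → Bool) (D : Finset X) (a b c d : X) : Prop :=
  (a ∈ D ∧ b ∈ D ∧ c ∈ D ∧ d ∈ D) ∧ IsP4 M a b c d ∧
    ∀ a' ∈ D, ∀ b' ∈ D, ∀ c' ∈ D, ∀ d' ∈ D, IsP4 M a' b' c' d' →
      psi M D a b c d ≤ psi M D a' b' c' d'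

lemma Best.rev (hM : ∀ x y, M x y = M y x) {a b c d : X} (h : Best M D a b c d) :
    Best M D d c b a := by
  obtain ⟨⟨h1, h2, h3, h4⟩, h5, h6⟩ := h
  refine ⟨⟨h4, h3, h2, h1⟩, h5.rev hM, ?_⟩
  intro a' ha b' hb c' hc d' hd hp
  rw [psi_rev]
  exact h6 a' ha b' hb c' hc d' hd hp

lemma Best.co (hM : ∀ x y, M x y = M y x) {a b c d : X} (h : Best M D a b c d) :
    Best (co M) D b d a c := by
  obtain ⟨⟨h1, h2, h3, h4⟩, h5, h6⟩ := h
  refine ⟨⟨h2, h4, h1, h3⟩, h5.co hM, ?_⟩
  intro a' ha b' hb c' hc d' hd hp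
  have hp' := hp.co (co_symm hM)
  rw [co_co] at hp'
  have h7 := h6 b' hb d' hd a' ha c' hc hp'
  have h8 := psi_co (M := Pool.Agent.H55.Kz.co M) (D := D) a' b' c' d'
  rw [co_co] at h8
  rw [psi_co, ← h8]
  exact h7

/-- the last vertex of a best P4 is a root of type 0 -/
lemma Best.last {a b c d : X} (h : Pack M D) (hB : Best M D a b c d) :
    M d d = false ∧ ∀ x ∈ D, M x c = true → M x a = false → M x b = false → M d x = false := by
  have hM := h.symm
  obtain ⟨⟨ha, hb, hc, hd⟩, hp, hmin⟩ := hB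
  obtain ⟨r, hr, r1, r2, r3, r4, r5⟩ := h.i ha hb hc hd hp
  have h1 := h.ii ha hb hc hd hp hr r1 r2 r3 r5
  have hp' := hp
  obtain ⟨-, -, -, -, -, -, hab, hbc, hcd, hac, had, hbd⟩ := hp'
  have h2 := hmin a ha b hb c hc r hr (mkP4 hM hab hbc (by rw [hM, r1]) hac (by rw [hM, r2])
    (by rw [hM, r3]))
  have h3 : dg M D d true ≤ dg M D r true := by
    unfold psi at h2
    omega
  have h4 : D.filter (fun y => M r y = true) = D.filter (fun y => M d y = true) := by
    apply Finset.eq_of_subset_of_card_le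
    · intro y hy
      rw [Finset.mem_filter] at hy ⊢
      exact ⟨hy.1, h1 y hy.1 hy.2⟩
    · exact h3
  have key : ∀ x ∈ D, M x c = true → M x a = false → M x b = false → M d x = false := by
    intro x hx e1 e2 e3
    by_contra hc'
    have hc' : M d x = true := by simpa using hc'
    have h5 : x ∈ D.filter (fun y => M r y = true) := by
      rw [h4, Finset.mem_filter]
      exact ⟨hx, hc'⟩
    rw [Finset.mem_filter, r5 x hx e1 e2 e3] at h5
    simp at h5
  exact ⟨key d hd (by rw [hM, hcd]) (by rw [hM, had]) (by rw [hM, hbd]), key⟩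

/-- a best P4 has the colours 0110 and no bad point in `D` -/
lemma Best.good {a b c d : X} (h : Pack M D) (hB : Best M D a b c d) :
    (M a a = false ∧ M b b = true ∧ M c c = true ∧ M d d = false) ∧
      ∀ w ∈ D, ¬ (M w a ≠ M w d ∧ M w b ≠ M w c) := by
  have hM := h.symm
  have e1 := Best.last h hB
  have e2 := Best.last h (hB.rev hM)
  have e3 := Best.last h.co (hB.co hM)
  have e4 := Best.last h.co ((hB.rev hM).co hM)
  have hn : ∀ (b s : Bool), (!b) = s ↔ b = !s := by decide
  simp only [Pool.Agent.H55.Kz.co, hn, Bool.not_true, Bool.not_false] at e3 e4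
  refine ⟨⟨e2.1, e4.1, e3.1, e1.1⟩, ?_⟩
  rintro w hw ⟨h1, h2⟩
  cases hwa : M w a <;> cases hwb : M w b <;> cases hwc : M w c <;> cases hwd : M w d <;>
    simp only [hwa, hwb, hwc, hwd, ne_eq, not_true, not_false_eq_true, reduceCtorEq] at h1 h2
  · have := e1.2 w hw hwc hwa hwb
    rw [hM, hwd] at this
    simp at this
  · have := e3.2 w hw hwa hwb hwd
    rw [hM, hwc] at this
    simp at this
  · have := e4.2 w hw hwd hwc hwa
    rw [hM, hwb] at this
    simp at this
  · have := e2.2 w hw hwb hwd hwc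
    rw [hM, hwa] at this
    simp at this

end

/-- cells: cut out of the whole set by prescribing entries in columns -/
inductive Cell [Fintype X] (M : X → X → Bool) : Finset X → Prop
  | top : Cell M Finset.univ
  | cut {D : Finset X} (w : X) (s : Bool) : Cell M D → Cell M (D.filter (fun x => M x w = s))

lemma Cell.mem [Fintype X] {M : X → X → Bool} {D : Finset X} (h : Cell M D) {a b c d g : X}
    (hg : ∀ y, M a y = M b y → M a y = M c y → M a y = M d y → M g y = M a y) :
    a ∈ D → b ∈ D → c ∈ D → d ∈ D → g ∈ D := by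
  induction h with
  | top => intros; exact Finset.mem_univ _
  | cut w s _ ih =>
    intro ha hb hc hd
    rw [Finset.mem_filter] at ha hb hc hd ⊢
    refine ⟨ih ha.1 hb.1 hc.1 hd.1, ?_⟩
    rw [hg w (by rw [ha.2, hb.2]) (by rw [ha.2, hc.2]) (by rw [ha.2, hd.2])]
    exact ha.2

def HasP4 (M : X → X → Bool) (D : Finset X) : Prop :=
  ∃ a ∈ D, ∃ b ∈ D, ∃ c ∈ D, ∃ d ∈ D, IsP4 M a b c d

theorem exists_good [Fintype X] {M : X → X → Bool} (hM : ∀ x y, M x y = M y x)
    (hP : PairsIn M Finset.univ) (h0 : HasP4 M Finset.univ) :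
    ∃ a b c d, IsP4 M a b c d ∧ (M a a = false ∧ M b b = true ∧ M c c = true ∧ M d d = false) ∧
      ∀ w, (∀ y, M a y = M b y → M a y = M c y → M a y = M d y → M w y = M a y) →
        ¬ (M w a ≠ M w d ∧ M w b ≠ M w c) := by
  classical
  obtain ⟨D, hD, hmin⟩ := Finset.exists_min_image
    (Finset.univ.filter (fun D : Finset X => Cell M D ∧ HasP4 M D)) Finset.card
    ⟨Finset.univ, by simp only [Finset.mem_filter, Finset.mem_univ, true_and]; exact ⟨.top, h0⟩⟩
  simp only [Finset.mem_filter, Finset.mem_univ, true_and] at hD hmin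
  obtain ⟨hcell, hP4⟩ := hD
  have hpairs : ∀ D : Finset X, Cell M D → PairsIn M D := by
    intro D hD u hu v hv hne h1 h2
    obtain ⟨g, -, g1, g2, g3, g4⟩ := hP u (Finset.mem_univ _) v (Finset.mem_univ _) hne h1 h2
    exact ⟨g, hD.mem (a := u) (b := v) (c := u) (d := v) (fun y h _ _ => g4 y h) hu hv hu hv,
      g1, g2, g3, g4⟩
  have hpack : Pack M D := by
    refine ⟨hM, hpairs D hcell, ?_, ?_⟩
    · intro y a ha b hb c hc d hd hp s h1 h2 h3 h4 x hx
      have h5 := hmin (D.filter (fun x => M x y = s)) ⟨hcell.cut y s, a,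
        Finset.mem_filter.2 ⟨ha, by rw [hM, h1]⟩, b, Finset.mem_filter.2 ⟨hb, by rw [hM, h2]⟩, c,
        Finset.mem_filter.2 ⟨hc, by rw [hM, h3]⟩, d, Finset.mem_filter.2 ⟨hd, by rw [hM, h4]⟩, hp⟩
      have h6 := Finset.eq_of_subset_of_card_le (Finset.filter_subset _ _) h5
      rw [← h6, Finset.mem_filter] at hx
      rw [hM]
      exact hx.2
    · intro p q r s t u h1 h2
      set D' := ((D.filter (fun x => M x p = s)).filter (fun x => M x q = t)).filter
        (fun x => M x r = u) with hD'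
      have hmem : ∀ x, x ∈ D' ↔ x ∈ D ∧ M x p = s ∧ M x q = t ∧ M x r = u := by
        intro x
        rw [hD', Finset.mem_filter, Finset.mem_filter, Finset.mem_filter]
        tauto
      have hc' : Cell M D' := ((hcell.cut p s).cut q t).cut r u
      have hfree : NoP4 M D' := by
        intro a ha b hb c hc d hd hp
        have h5 := hmin D' ⟨hc', a, ha, b, hb, c, hc, d, hd, hp⟩
        have h6 := Finset.eq_of_subset_of_card_le (fun x hx => ((hmem x).1 hx).1) h5
        obtain ⟨x, hx, hx'⟩ := h2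
        rw [← h6, hmem] at hx
        exact hx' hx.2
      obtain ⟨x, hx, hx'⟩ := h1
      obtain ⟨z, hz, hz'⟩ := Pool.Agent.H55.Kz.root D'.card M D' rfl hM
        ⟨x, (hmem x).2 ⟨hx, hx'⟩⟩ (hpairs D' hc') hfree
      rw [hmem] at hz
      exact ⟨z, hz.1, hz.2, fun x hx h3 h4 h5 => hz' x ((hmem x).2 ⟨hx, h3, h4, h5⟩)⟩
  -- the best P4
  have hex : ∃ n, ∃ a ∈ D, ∃ b ∈ D, ∃ c ∈ D, ∃ d ∈ D, IsP4 M a b c d ∧ psi M D a b c d = n := by
    obtain ⟨a, ha, b, hb, c, hc, d, hd, hp⟩ := hP4
    exact ⟨_, a, ha, b, hb, c, hc, d, hd, hp, rfl⟩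
  obtain ⟨a, ha, b, hb, c, hc, d, hd, hp, hn⟩ := Nat.find_spec hex
  have hB : Best M D a b c d := by
    refine ⟨⟨ha, hb, hc, hd⟩, hp, ?_⟩
    intro a' ha' b' hb' c' hc' d' hd' hp'
    rw [hn]
    exact Nat.find_min' hex ⟨a', ha', b', hb', c', hc', d', hd', hp', rfl⟩
  obtain ⟨h1, h2⟩ := hB.good hpack
  exact ⟨a, b, c, d, hp, h1, fun w hw => h2 w (hcell.mem hw ha hb hc hd)⟩

/-- **(P3)** -/
theorem p3 : Pool.Agent.H17.P3.P3 := by
  intro X hX M0 hM0 hp hs a b c d h
  classical
  have := Fintype.ofFinite X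
  have hz : ∀ t : ZMod 2, t = 0 ∨ t = 1 := by decide
  let M : X → X → Bool := fun x y => decide (M0 x y = 1)
  have ht : ∀ x y, M x y = true ↔ M0 x y = 1 := fun x y => by simp [M]
  have hf : ∀ x y, M x y = false ↔ M0 x y = 0 := fun x y => by
    rcases hz (M0 x y) with e | e <;> simp [M, e]
  have he : ∀ x y x' y', M x y = M x' y' ↔ M0 x y = M0 x' y' := by
    intro x y x' y'
    rcases hz (M0 x y) with e | e <;> rcases hz (M0 x' y') with e' | e' <;> simp [M, e, e']
  have hn : ∀ x y x' y', (M x y = !(M x' y')) ↔ M0 x y ≠ M0 x' y' := by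
    intro x y x' y'
    rcases hz (M0 x y) with e | e <;> rcases hz (M0 x' y') with e' | e' <;> simp [M, e, e']
  have hM : ∀ x y, M x y = M y x := fun x y => (he _ _ _ _).2 (hM0 x y)
  have hP : PairsIn M Finset.univ := by
    intro u _ v _ _ h1 h2
    rw [he] at h1
    rw [hn] at h2
    obtain ⟨g, g1, g2, g3, g4⟩ := hp u v h1 h2
    refine ⟨g, Finset.mem_univ _, (hn _ _ _ _).2 g1, (hn _ _ _ _).2 (by rw [g2]; exact g1),
      (hn _ _ _ _).2 (by rw [g3]; exact g1), fun y hy => (he _ _ _ _).2 (g4 y ((he _ _ _ _).1 hy))⟩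
  obtain ⟨a, b, c, d, ⟨-, -, -, -, -, -, h1, h2, h3, h4, h5, h6⟩, ⟨e1, e2, e3, e4⟩, hgood⟩ :=
    exists_good hM hP ⟨a, Finset.mem_univ _, b, Finset.mem_univ _, c, Finset.mem_univ _, d,
      Finset.mem_univ _, mkP4 hM ((ht _ _).2 h.ab) ((ht _ _).2 h.bc) ((ht _ _).2 h.cd)
        ((hf _ _).2 h.ac) ((hf _ _).2 h.ad) ((hf _ _).2 h.bd)⟩
  obtain ⟨g, ⟨g1, g2⟩, g3⟩ := hs a b c d ⟨(ht _ _).1 h1, (ht _ _).1 h2, (ht _ _).1 h3,
    (hf _ _).1 h4, (hf _ _).1 h5, (hf _ _).1 h6⟩ ((hf _ _).1 e1) ((ht _ _).1 e2) ((ht _ _).1 e3)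
    ((hf _ _).1 e4)
  refine hgood g (fun y y1 y2 y3 => (he _ _ _ _).2 (g3 y ((he _ _ _ _).1 y1)
    ((he _ _ _ _).1 y2) ((he _ _ _ _).1 y3))) ⟨fun h => g1 ((he _ _ _ _).1 h),
    fun h => g2 ((he _ _ _ _).1 h)⟩

end Pool.Agent.H55.Kz


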