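import Mathlib
import Pool.Agent.H55.Kz.P3
import Pool.Agent.H98.Code.Minor

set_option autoImplicit false
set_option linter.unusedSectionVars false

/-!
A self-dual code without weight one word in which every nonzero `z`-free word splits has no compatible
functional which is the parity on its `{0,z}`-words (MP_a46c6f_co, notes 7137, 7157, 7159).
-/

namespace Pool.Agent.H55.Kz

open Pool.Agent.H98.Code

section dec

lemma k1 : ∀ a b : K, b.1 = 1 → kf a b = 0 → a = a.1 • b := by decide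
lemma k2 : ∀ a b : K, b.1 = 1 → kf a b = 1 → a = a.1 • b + z := by decide
lemma k3 : ∀ a b : K, b.1 = 1 → kf a b = 0 → a = 0 ∨ a = b := by decide
lemma k4 : ∀ b : K, b.1 = 1 → kf z b = 1 := by decide
lemma k5 : ∀ b : K, kf b b = 0 := by decide
lemma k6 : ∀ (t : ZMod 2) (a b : K), kf (t • a) b = t * kf a b := by decide
lemma k7 : ∀ (a b : K), kf a b = kf b a := by decide
lemma k8 : ∀ (a b c : K), kf (a + b) c = kf a c + kf b c := by decide
lemma kz : ∀ t : ZMod 2, t = 0 ∨ t = 1 := by decide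
lemma k9 : ∀ (s t : ZMod 2) (b : K), b.1 = 1 → s • b + t • z = 0 → s = 0 ∧ t = 0 := by decide
lemma k10 : ∀ (s t : ZMod 2) (b : K), b.1 = 1 → s • b + t • z = z → s = 0 ∧ t = 1 := by decide
lemma k11 : ∀ (s t : ZMod 2) (b : K), b.1 = 1 → kf (s • b + t • z) b = t := by decide
lemma k12 : ∀ (s t s' t' : ZMod 2) (b : K), b.1 = 1 →
    kf (s • b + t • z) (s' • b + t' • z) = s * t' + t * s' := by decide
lemma k13 : ∀ (s t : ZMod 2) (b : K), b.1 = 1 → (t = 1 → s = 1) → s • b + t • z ≠ z := by decide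
lemma kadd : ∀ t : ZMod 2, t + t = 0 := by decide

lemma pair_dec : ∀ a b uu uv vv gg gu gv : ZMod 2, uu = vv → uv ≠ uu → 1 + a + b = 0 →
    gg + a * gu + b * gv = 0 → gg + (1 + a) * gu + (1 + b) * gv = 0 →
    ((a = 0 ∧ gu + a * uu + b * uv = 0) ∨ (1 + a = 0 ∧ gu + (1 + a) * uu + (1 + b) * uv = 0)) →
    ((b = 0 ∧ gv + a * uv + b * vv = 0) ∨ (1 + b = 0 ∧ gv + (1 + a) * uv + (1 + b) * vv = 0)) →
    gg ≠ uu ∧ gu = gg ∧ gv = gg := by decide

lemma p4_dec : ∀ a b c d ga gb gc gd : ZMod 2, 1 + a + b + c + d = 0 →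
    ((a = 0 ∧ ga + b = 0) ∨ (1 + a = 0 ∧ ga + (1 + b) = 0)) →
    ((b = 0 ∧ gb + a + b + c = 0) ∨ (1 + b = 0 ∧ gb + (1 + a) + (1 + b) + (1 + c) = 0)) →
    ((c = 0 ∧ gc + b + c + d = 0) ∨ (1 + c = 0 ∧ gc + (1 + b) + (1 + c) + (1 + d) = 0)) →
    ((d = 0 ∧ gd + c = 0) ∨ (1 + d = 0 ∧ gd + (1 + c) = 0)) → ga ≠ gd ∧ gb ≠ gc := by decide

end dec

variable {V : Type} [Fintype V] [DecidableEq V] {N : Submodule (ZMod 2) (V → K)} {β : V → K}

/-- the third letters of `u` with respect to the full vector `β` -/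
def pp (β u : V → K) (v : V) : ZMod 2 := kf (u v) (β v)

/-- the words with at most four third letters, orthogonal to `β`, split with halves orthogonal to `β` -/
def SF (N : Submodule (ZMod 2) (V → K)) (β : V → K) : Prop :=
  ∀ u ∈ N, u ≠ 0 → ZFree u → form u β = 0 → (Finset.univ.filter (fun v => pp β u v = 1)).card ≤ 4 →
    ∃ g, ∃ c₁ ∈ N, ∃ c₂ ∈ N, c₁ + c₂ = u ∧ c₁ g = z ∧ c₂ g = z ∧
      (∀ v, v ≠ g → c₁ v = 0 ∨ c₂ v = 0) ∧ form c₁ β = 0 ∧ form c₂ β = 0

lemma bne (hβ : ∀ v, (β v).1 = 1) (v : V) : β v ≠ z ∧ β v ≠ 0 := by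
  constructor
  · intro h
    have := hβ v
    rw [h] at this
    exact absurd this (by decide)
  · intro h
    have := hβ v
    rw [h] at this
    exact absurd this (by decide)

lemma pp_inj (hβ : ∀ v, (β v).1 = 1) (hS : SF N β) {u : V → K} (hu : u ∈ N)
    (h : ∀ v, pp β u v = 0) : u = 0 := by
  by_contra hne
  have huv : ∀ v, u v = 0 ∨ u v = β v := fun v => k3 _ _ (hβ v) (h v)
  have hzf : ZFree u := by
    intro v hv
    rcases huv v with h1 | h1
    · rw [h1] at hv; exact absurd hv (by decide)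
    · exact (bne hβ v).1 (h1 ▸ hv)
  obtain ⟨g, c₁, -, c₂, -, hs, h1, h2, h3, h4, -⟩ := hS u hu hne hzf
    (Finset.sum_eq_zero fun v _ => h v) (by
      rw [Finset.filter_false_of_mem]
      · simp
      · intro v _
        rw [h v]
        decide)
  have h5 : form c₁ β = 1 := by
    unfold form
    rw [Finset.sum_eq_single g]
    · rw [h1]; exact k4 _ (hβ g)
    · intro v _ hv
      rcases h3 v hv with h6 | h6
      · rw [h6]; simp [kf]
      · have h7 : c₁ v = u v := by rw [← hs, Pi.add_apply, h6, add_zero]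
        rw [h7]; exact h v
    · intro h; exact absurd (Finset.mem_univ g) h
  rw [h4] at h5
  exact absurd h5 (by decide)

lemma pp_surj (hN : IsCode N) (hβ : ∀ v, (β v).1 = 1) (hS : SF N β) (x : V → ZMod 2) :
    ∃ u ∈ N, ∀ v, pp β u v = x v := by
  let P : N →ₗ[ZMod 2] (V → ZMod 2) :=
    { toFun := fun u v => pp β (u : V → K) v
      map_add' := fun u w => by
        funext v
        exact k8 _ _ _
      map_smul' := fun t u => by
        funext v
        exact k6 _ _ _ }
  by_cases hP : LinearMap.range P = ⊤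
  · have : x ∈ LinearMap.range P := by rw [hP]; trivial
    obtain ⟨u, hu⟩ := this
    exact ⟨u, u.2, fun v => congrFun hu v⟩
  exfalso
  obtain ⟨φ, hφ, hle⟩ := Submodule.exists_le_ker_of_lt_top _ (lt_top_iff_ne_top.2 hP)
  set t : V → ZMod 2 := fun v => φ (Pi.single v 1) with ht
  have hφt : ∀ y : V → ZMod 2, φ y = ∑ v, t v * y v := by
    intro y
    conv_lhs => rw [← Finset.univ_sum_single y]
    rw [map_sum]
    refine Finset.sum_congr rfl fun v _ => ?_
    have : Pi.single v (y v) = (y v) • (Pi.single v (1 : ZMod 2) : V → ZMod 2) := by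
      funext w
      by_cases hw : w = v
      · subst hw; simp
      · simp [Pi.single_apply, hw]
    rw [this, map_smul, smul_eq_mul, mul_comm]
  have hw : (fun v => t v • β v) ∈ N := by
    refine hN.max _ fun u hu => ?_
    unfold form
    have h1 : ∀ v, kf (t v • β v) (u v) = t v * pp β u v := fun v => by
      rw [k6, k7 (β v)]; rfl
    simp only [h1]
    rw [← hφt]
    have : P ⟨u, hu⟩ ∈ LinearMap.range P := ⟨_, rfl⟩
    exact hle this
  have h2 := pp_inj hβ hS hw (fun v => by
    show kf (t v • β v) (β v) = 0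
    rw [k6, k5, mul_zero])
  apply hφ
  ext v
  have h3 : t v • β v = 0 := congrFun h2 v
  have h4 : t v = 0 := by
    rcases kz (t v) with h | h
    · exact h
    · rw [h, one_smul] at h3
      exact absurd h3 (bne hβ v).2
  simpa [ht] using h4

/-- the matrix of `N` with respect to `β` -/
theorem exists_mat (hN : IsCode N) (hβ : ∀ v, (β v).1 = 1) (hS : SF N β) :
    ∃ M : V → V → ZMod 2, (∀ x y, M x y = M y x) ∧
      (∀ x : V → ZMod 2, (fun y => (∑ t, x t * M t y) • β y + x y • z) ∈ N) ∧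
      ∀ u ∈ N, ∀ y, u y = (∑ t, pp β u t * M t y) • β y + pp β u y • z := by
  have hex : ∀ v : V, ∃ u ∈ N, ∀ y, pp β u y = if v = y then 1 else 0 :=
    fun v => pp_surj hN hβ hS _
  choose m hm hm2 using hex
  have hmy : ∀ v y, m v y = (m v y).1 • β y + (if v = y then (1 : ZMod 2) else 0) • z := by
    intro v y
    have h1 := hm2 v y
    by_cases h : v = y
    · rw [if_pos h] at h1 ⊢
      rw [one_smul]
      exact k2 _ _ (hβ y) h1
    · rw [if_neg h] at h1 ⊢
      rw [zero_smul, add_zero]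
      exact k1 _ _ (hβ y) h1
  have hsum : ∀ x : V → ZMod 2, (fun y => (∑ t, x t * (m t y).1) • β y + x y • z) =
      ∑ t, x t • m t := by
    intro x
    funext y
    rw [Finset.sum_apply]
    have h1 : ∀ t, (x t • m t) y = (x t * (m t y).1) • β y +
        (if t = y then x t else 0) • z := by
      intro t
      rw [Pi.smul_apply, hmy t y, smul_add, smul_smul, smul_smul]
      congr 2
      · congr 1
        have := congrArg Prod.fst (hmy t y)
        exact this
      · by_cases h : t = y <;> simp [h]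
    simp only [h1]
    rw [Finset.sum_add_distrib, ← Finset.sum_smul, ← Finset.sum_smul,
      Finset.sum_ite_eq' Finset.univ y]
    simp
  have hin : ∀ x : V → ZMod 2, (fun y => (∑ t, x t * (m t y).1) • β y + x y • z) ∈ N := by
    intro x
    rw [hsum]
    exact N.sum_mem fun t _ => N.smul_mem _ (hm t)
  refine ⟨fun v y => (m v y).1, ?_, hin, ?_⟩
  · intro u v
    by_cases huv : u = v
    · rw [huv]
    have h1 := hN.iso _ (hm u) _ (hm v)
    unfold form at h1
    have h2 : ∀ y, kf (m u y) (m v y) = (m u y).1 * (if v = y then 1 else 0) +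
        (if u = y then 1 else 0) * (m v y).1 := by
      intro y
      conv_lhs => rw [hmy u y, hmy v y]
      exact k12 _ _ _ _ _ (hβ y)
    simp only [h2] at h1
    rw [Finset.sum_add_distrib] at h1
    simp only [mul_ite, mul_one, mul_zero, ite_mul, one_mul, zero_mul, Finset.sum_ite_eq,
      Finset.mem_univ, if_true] at h1
    have h3 : ∀ a b : ZMod 2, a + b = 0 → a = b := by decide
    exact h3 _ _ h1
  · intro u hu y
    have h1 := N.sub_mem hu (hin (pp β u))
    have h2 := pp_inj hβ hS h1 (fun v => by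
      show kf ((u - fun y => (∑ t, pp β u t * (m t y).1) • β y + pp β u y • z) v) (β v) = 0
      have h3 : ∀ (a c b : K), kf (a - c) b = kf a b - kf c b := by decide
      rw [Pi.sub_apply, h3, k11 _ _ _ (hβ v)]
      exact sub_self _)
    have h4 := congrFun (sub_eq_zero.1 h2) y
    exact h4

lemma pp_word (hβ : ∀ v, (β v).1 = 1) (s t : V → ZMod 2) (v : V) :
    pp β (fun y => s y • β y + t y • z) v = t v := k11 _ _ _ (hβ v)

lemma form_word (hβ : ∀ v, (β v).1 = 1) (u : V → K) : form u β = ∑ v, pp β u v := rfl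

/-- the two halves of a split word -/
theorem halves (hβ : ∀ v, (β v).1 = 1) {M : V → V → ZMod 2}
    (hM2 : ∀ u ∈ N, ∀ y, u y = (∑ t, pp β u t * M t y) • β y + pp β u y • z)
    {x : V → ZMod 2} {u : V → K} (hx : ∀ v, pp β u v = x v) {g : V} {c₁ c₂ : V → K} (h1 : c₁ ∈ N)
    (h2 : c₂ ∈ N) (hs : c₁ + c₂ = u) (hg1 : c₁ g = z) (hg2 : c₂ g = z)
    (hd : ∀ v, v ≠ g → c₁ v = 0 ∨ c₂ v = 0) (hf1 : form c₁ β = 0) :
    ∃ x₁ : V → ZMod 2, x₁ g = 1 ∧ x g = 0 ∧ (∀ v, v ≠ g → x v = 0 → x₁ v = 0) ∧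
      ∑ v, x₁ v = 0 ∧ (∑ t, x₁ t * M t g = 0) ∧ (∑ t, (x t + x₁ t) * M t g = 0) ∧
      ∀ v, v ≠ g → (x₁ v = 0 ∧ ∑ t, x₁ t * M t v = 0) ∨
        (x v + x₁ v = 0 ∧ ∑ t, (x t + x₁ t) * M t v = 0) := by
  have hc2 : ∀ v, pp β c₂ v = x v + pp β c₁ v := by
    intro v
    rw [← hx v, ← hs]
    show kf (c₂ v) (β v) = kf (c₁ v + c₂ v) (β v) + kf (c₁ v) (β v)
    rw [k8]
    have : ∀ a b : ZMod 2, b = a + b + a := by decide
    exact this _ _
  have e1 := hM2 _ h1
  have e2 := hM2 _ h2
  have g1 := e1 g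
  rw [hg1] at g1
  have g1' := k10 _ _ _ (hβ g) g1.symm
  have g2 := e2 g
  rw [hg2] at g2
  have g2' := k10 _ _ _ (hβ g) g2.symm
  simp only [hc2] at g2'
  refine ⟨pp β c₁, g1'.2, ?_, ?_, hf1, g1'.1, g2'.1, ?_⟩
  · have h3 := g2'.2
    rw [g1'.2] at h3
    have : ∀ a : ZMod 2, a + 1 = 1 → a = 0 := by decide
    exact this _ h3
  · intro v hv hxv
    rcases hd v hv with h3 | h3
    · show kf (c₁ v) (β v) = 0
      rw [h3]; simp [kf]
    · have h4 := hc2 v
      rw [hxv, zero_add] at h4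
      rw [← h4]
      show kf (c₂ v) (β v) = 0
      rw [h3]; simp [kf]
  · intro v hv
    rcases hd v hv with h3 | h3
    · left
      have h4 := e1 v
      rw [h3] at h4
      have h5 := k9 _ _ _ (hβ v) h4.symm
      exact ⟨h5.2, h5.1⟩
    · right
      have h4 := e2 v
      rw [h3] at h4
      have h5 := k9 _ _ _ (hβ v) h4.symm
      simp only [hc2] at h5
      exact ⟨h5.2, h5.1⟩

lemma ite_sum (a : ZMod 2) (u : V) (f : V → ZMod 2) :
    ∑ t, (if t = u then a else 0) * f t = a * f u := by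
  rw [Finset.sum_eq_single u]
  · rw [if_pos rfl]
  · intro b _ hb
    rw [if_neg hb, zero_mul]
  · intro h; exact absurd (Finset.mem_univ u) h

lemma ite_sum' (a : ZMod 2) (u : V) : ∑ t, (if t = u then a else 0) = a := by
  rw [Finset.sum_eq_single u]
  · rw [if_pos rfl]
  · intro b _ hb
    rw [if_neg hb]
  · intro h; exact absurd (Finset.mem_univ u) h

theorem pairs_of (hN : IsCode N) (hβ : ∀ v, (β v).1 = 1) (hS : SF N β) {M : V → V → ZMod 2}
    (hM : ∀ x y, M x y = M y x)
    (hM1 : ∀ x : V → ZMod 2, (fun y => (∑ t, x t * M t y) • β y + x y • z) ∈ N)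
    (hM2 : ∀ u ∈ N, ∀ y, u y = (∑ t, pp β u t * M t y) • β y + pp β u y • z) :
    Pool.Agent.H17.P3.Pairs M := by
  intro u v huv hne
  have hne' : u ≠ v := by
    rintro rfl
    exact hne rfl
  set x : V → ZMod 2 := fun t => (if t = u then 1 else 0) + (if t = v then 1 else 0) with hx
  set w : V → K := fun y => (∑ t, x t * M t y) • β y + x y • z with hw
  have hpw : ∀ y, pp β w y = x y := fun y => pp_word hβ _ _ y
  have hxu : x u = 1 := by simp [hx, hne']
  have hxv : x v = 1 := by simp [hx, hne'.symm]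
  have hx0 : ∀ t, t ≠ u → t ≠ v → x t = 0 := by
    intro t h1 h2
    simp [hx, h1, h2]
  have hsx : ∀ y, ∑ t, x t * M t y = M u y + M v y := by
    intro y
    simp only [hx, add_mul, Finset.sum_add_distrib]
    rw [ite_sum, ite_sum, one_mul, one_mul]
  have hzf : ZFree w := by
    intro y
    refine k13 _ _ _ (hβ y) ?_
    intro hxy
    rw [hsx]
    have h3 : ∀ a b : ZMod 2, b ≠ a → a + b = 1 := by decide
    have h4 : ∀ a b : ZMod 2, b ≠ a → b + a = 1 := by decide
    by_cases h1 : y = u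
    · rw [h1, hM v u]
      exact h3 _ _ hne
    · by_cases h2 : y = v
      · rw [h2]
        exact h4 _ _ (huv ▸ hne)
      · rw [hx0 y h1 h2] at hxy
        exact absurd hxy (by decide)
  have hw0 : w ≠ 0 := by
    intro h
    have h1 := hpw u
    rw [h, hxu] at h1
    exact absurd h1 (by simp [pp, kf])
  have hfw : form w β = 0 := by
    rw [form_word hβ]
    simp only [hpw, hx, Finset.sum_add_distrib]
    rw [ite_sum', ite_sum']
    decide
  have hcard : (Finset.univ.filter (fun y => pp β w y = 1)).card ≤ 4 := by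
    refine le_trans (Finset.card_le_card (t := {u, v}) ?_) (le_trans Finset.card_le_two (by omega))
    intro y hy
    rw [Finset.mem_filter, hpw] at hy
    by_contra h
    simp only [Finset.mem_insert, Finset.mem_singleton, not_or] at h
    rw [hx0 y h.1 h.2] at hy
    exact absurd hy.2 (by decide)
  obtain ⟨g, c₁, h1, c₂, h2, hs, hg1, hg2, hd, hf1, -⟩ := hS w (hM1 x) hw0 hzf hfw hcard
  obtain ⟨x₁, a1, a2, a3, a4, a5, a6, a7⟩ := halves hβ hM2 hpw h1 h2 hs hg1 hg2 hd hf1
  have hgu : g ≠ u := by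
    rintro rfl
    rw [hxu] at a2
    exact absurd a2 (by decide)
  have hgv : g ≠ v := by
    rintro rfl
    rw [hxv] at a2
    exact absurd a2 (by decide)
  have hx1 : ∀ t, x₁ t = (if t = g then 1 else 0) + (if t = u then x₁ u else 0) +
      (if t = v then x₁ v else 0) := by
    intro t
    by_cases e1 : t = g
    · rw [e1, a1]; simp [hgu, hgv]
    · by_cases e2 : t = u
      · rw [e2]; simp [hgu.symm, hne']
      · by_cases e3 : t = v
        · rw [e3]; simp [hgv.symm, hne'.symm]
        · rw [a3 t e1 (hx0 t e2 e3)]; simp [e1, e2, e3]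
  have hs1 : ∀ y, ∑ t, x₁ t * M t y = M g y + x₁ u * M u y + x₁ v * M v y := by
    intro y
    rw [Finset.sum_congr rfl (fun t _ => by rw [hx1 t])]
    simp only [add_mul, Finset.sum_add_distrib]
    rw [ite_sum, ite_sum, ite_sum, one_mul]
  have hs2 : ∀ y, ∑ t, (x t + x₁ t) * M t y = M g y + (1 + x₁ u) * M u y + (1 + x₁ v) * M v y := by
    intro y
    simp only [add_mul, Finset.sum_add_distrib]
    rw [hsx, hs1]
    ring
  have hsum : 1 + x₁ u + x₁ v = 0 := by
    rw [Finset.sum_congr rfl (fun t _ => hx1 t)] at a4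
    simp only [Finset.sum_add_distrib] at a4
    rw [ite_sum', ite_sum', ite_sum'] at a4
    exact a4
  rw [hs1] at a5
  rw [hs2] at a6
  have a7u := a7 u hgu.symm
  have a7v := a7 v hgv.symm
  rw [hs1, hs2, hxu] at a7u
  rw [hs1, hs2, hxv] at a7v
  rw [hM v u] at a7u
  rw [hM u g, hM v g] at a5 a6
  have key := pair_dec (x₁ u) (x₁ v) (M u u) (M u v) (M v v) (M g g) (M g u) (M g v) huv hne hsum
    a5 a6 a7u a7v
  refine ⟨g, key.1, key.2.1, key.2.2, ?_⟩
  intro y hy
  by_cases hyg : y = g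
  · rw [hyg, hM u g]
    exact key.2.1.symm
  · have h5 := a7 y hyg
    rw [hs1, hs2, ← hy] at h5
    have h6 : ∀ a b c d p q : ZMod 2, 1 + a + b = 0 → ((p = 0 ∧ c + a * d + b * d = 0) ∨
        (q = 0 ∧ c + (1 + a) * d + (1 + b) * d = 0)) → c = d := by decide
    exact h6 _ _ _ _ _ _ hsum h5

theorem p4split_of (hβ : ∀ v, (β v).1 = 1) (hS : SF N β) {M : V → V → ZMod 2}
    (hM : ∀ x y, M x y = M y x)
    (hM1 : ∀ x : V → ZMod 2, (fun y => (∑ t, x t * M t y) • β y + x y • z) ∈ N)
    (hM2 : ∀ u ∈ N, ∀ y, u y = (∑ t, pp β u t * M t y) • β y + pp β u y • z) :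
    Pool.Agent.H17.P3.P4Split M := by
  intro a b c d hp haa hbb hcc hdd
  obtain ⟨hab, hbc, hcd, hac, had, hbd⟩ := hp
  have h01 : (0 : ZMod 2) ≠ 1 := by decide
  have nab : a ≠ b := by rintro rfl; exact h01 (haa.symm.trans hab)
  have nac : a ≠ c := by rintro rfl; exact h01 (haa.symm.trans hcc)
  have nad : a ≠ d := by
    rintro rfl
    exact h01 (hac.symm.trans ((hM _ _).trans hcd))
  have nbc : b ≠ c := by rintro rfl; exact h01 (hbd.symm.trans hcd)
  have nbd : b ≠ d := by rintro rfl; exact h01 (hdd.symm.trans hbb)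
  have ncd : c ≠ d := by rintro rfl; exact h01 (hdd.symm.trans hcc)
  set x : V → ZMod 2 := fun t => (if t = a then 1 else 0) + (if t = b then 1 else 0) +
    (if t = c then 1 else 0) + (if t = d then 1 else 0) with hx
  set w : V → K := fun y => (∑ t, x t * M t y) • β y + x y • z with hw
  have hpw : ∀ y, pp β w y = x y := fun y => pp_word hβ _ _ y
  have hxa : x a = 1 := by simp [hx, nab, nac, nad]
  have hxb : x b = 1 := by simp [hx, nab.symm, nbc, nbd]
  have hxc : x c = 1 := by simp [hx, nac.symm, nbc.symm, ncd]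
  have hxd : x d = 1 := by simp [hx, nad.symm, nbd.symm, ncd.symm]
  have hx0 : ∀ t, t ≠ a → t ≠ b → t ≠ c → t ≠ d → x t = 0 := by
    intro t h1 h2 h3 h4
    simp [hx, h1, h2, h3, h4]
  have hsx : ∀ y, ∑ t, x t * M t y = M a y + M b y + M c y + M d y := by
    intro y
    simp only [hx, add_mul, Finset.sum_add_distrib]
    rw [ite_sum, ite_sum, ite_sum, ite_sum, one_mul, one_mul, one_mul, one_mul]
  have hba : M b a = 1 := (hM _ _).trans hab
  have hcb : M c b = 1 := (hM _ _).trans hbc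
  have hdc : M d c = 1 := (hM _ _).trans hcd
  have hca : M c a = 0 := (hM _ _).trans hac
  have hda : M d a = 0 := (hM _ _).trans had
  have hdb : M d b = 0 := (hM _ _).trans hbd
  have hzf : ZFree w := by
    intro y
    refine k13 _ _ _ (hβ y) ?_
    intro hxy
    rw [hsx]
    by_cases h1 : y = a
    · rw [h1, haa, hba, hca, hda]; decide
    by_cases h2 : y = b
    · rw [h2, hab, hbb, hcb, hdb]; decide
    by_cases h3 : y = c
    · rw [h3, hac, hbc, hcc, hdc]; decide
    by_cases h4 : y = d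
    · rw [h4, had, hbd, hcd, hdd]; decide
    rw [hx0 y h1 h2 h3 h4] at hxy
    exact absurd hxy (by decide)
  have hw0 : w ≠ 0 := by
    intro h
    have h1 := hpw a
    rw [h, hxa] at h1
    exact absurd h1 (by simp [pp, kf])
  have hfw : form w β = 0 := by
    rw [form_word hβ]
    simp only [hpw, hx, Finset.sum_add_distrib]
    rw [ite_sum', ite_sum', ite_sum', ite_sum']
    decide
  have hcard : (Finset.univ.filter (fun y => pp β w y = 1)).card ≤ 4 := by
    refine le_trans (Finset.card_le_card (t := {a, b, c, d}) ?_) Finset.card_le_four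
    intro y hy
    rw [Finset.mem_filter, hpw] at hy
    by_contra h
    simp only [Finset.mem_insert, Finset.mem_singleton, not_or] at h
    rw [hx0 y h.1 h.2.1 h.2.2.1 h.2.2.2] at hy
    exact absurd hy.2 (by decide)
  obtain ⟨g, c₁, h1, c₂, h2, hs, hg1, hg2, hd, hf1, -⟩ := hS w (hM1 x) hw0 hzf hfw hcard
  obtain ⟨x₁, a1, a2, a3, a4, a5, a6, a7⟩ := halves hβ hM2 hpw h1 h2 hs hg1 hg2 hd hf1
  have hg' : ∀ t, x t = 1 → g ≠ t := by
    intro t ht e
    rw [← e, a2] at ht
    exact absurd ht (by decide)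
  have hga := hg' a hxa
  have hgb := hg' b hxb
  have hgc := hg' c hxc
  have hgd := hg' d hxd
  have hx1 : ∀ t, x₁ t = (if t = g then 1 else 0) + (if t = a then x₁ a else 0) +
      (if t = b then x₁ b else 0) + (if t = c then x₁ c else 0) + (if t = d then x₁ d else 0) := by
    intro t
    by_cases e1 : t = g
    · rw [e1, a1]; simp [hga, hgb, hgc, hgd]
    by_cases e2 : t = a
    · rw [e2]; simp [hga.symm, nab, nac, nad]
    by_cases e3 : t = b
    · rw [e3]; simp [hgb.symm, nab.symm, nbc, nbd]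
    by_cases e4 : t = c
    · rw [e4]; simp [hgc.symm, nac.symm, nbc.symm, ncd]
    by_cases e5 : t = d
    · rw [e5]; simp [hgd.symm, nad.symm, nbd.symm, ncd.symm]
    rw [a3 t e1 (hx0 t e2 e3 e4 e5)]
    simp [e1, e2, e3, e4, e5]
  have hs1 : ∀ y, ∑ t, x₁ t * M t y = M g y + x₁ a * M a y + x₁ b * M b y + x₁ c * M c y +
      x₁ d * M d y := by
    intro y
    rw [Finset.sum_congr rfl (fun t _ => by rw [hx1 t])]
    simp only [add_mul, Finset.sum_add_distrib]
    rw [ite_sum, ite_sum, ite_sum, ite_sum, ite_sum, one_mul]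
  have hs2 : ∀ y, ∑ t, (x t + x₁ t) * M t y = M g y + (1 + x₁ a) * M a y + (1 + x₁ b) * M b y +
      (1 + x₁ c) * M c y + (1 + x₁ d) * M d y := by
    intro y
    simp only [add_mul, Finset.sum_add_distrib]
    rw [hsx, hs1]
    ring
  have hsum : 1 + x₁ a + x₁ b + x₁ c + x₁ d = 0 := by
    rw [Finset.sum_congr rfl (fun t _ => hx1 t)] at a4
    simp only [Finset.sum_add_distrib] at a4
    rw [ite_sum', ite_sum', ite_sum', ite_sum', ite_sum'] at a4
    exact a4
  have b1 := a7 a hga.symm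
  have b2 := a7 b hgb.symm
  have b3 := a7 c hgc.symm
  have b4 := a7 d hgd.symm
  rw [hs1, hs2, hxa, haa, hba, hca, hda] at b1
  rw [hs1, hs2, hxb, hab, hbb, hcb, hdb] at b2
  rw [hs1, hs2, hxc, hac, hbc, hcc, hdc] at b3
  rw [hs1, hs2, hxd, had, hbd, hcd, hdd] at b4
  have key := p4_dec (x₁ a) (x₁ b) (x₁ c) (x₁ d) (M g a) (M g b) (M g c) (M g d) hsum
    (by simpa using b1) (by simpa using b2) (by simpa using b3) (by simpa using b4)
  refine ⟨g, key, ?_⟩
  intro y y1 y2 y3
  by_cases hyg : y = g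
  · have h5 := a5
    rw [hs1] at h5
    rw [← hyg] at h5
    rw [← y1, ← y2, ← y3] at h5
    rw [← hyg]
    have h6 : ∀ p q r s c d : ZMod 2, 1 + p + q + r + s = 0 →
        c + p * d + q * d + r * d + s * d = 0 → c = d := by decide
    exact h6 _ _ _ _ _ _ hsum h5
  · have h5 := a7 y hyg
    rw [hs1, hs2, ← y1, ← y2, ← y3] at h5
    have h6 : ∀ p q r s c d u v : ZMod 2, 1 + p + q + r + s = 0 →
        ((u = 0 ∧ c + p * d + q * d + r * d + s * d = 0) ∨
          (v = 0 ∧ c + (1 + p) * d + (1 + q) * d + (1 + r) * d + (1 + s) * d = 0)) → c = d := by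
      decide
    exact h6 _ _ _ _ _ _ _ _ hsum h5

/-- **Lemma O**: a self-dual code on `V ≠ ∅` without weight one word `z_g` in which the words with at
most one third letter split has no full vector `β` with `SF`. -/
theorem lemma_o [Nonempty V] (hN : IsCode N) (hβ : ∀ v, (β v).1 = 1) (hS : SF N β)
    (hz : ∀ u ∈ N, ∀ g, u g = z → ∃ v, v ≠ g ∧ u v ≠ 0)
    (hC : ∀ u ∈ N, u ≠ 0 → ZFree u → ∃ g, Splits N u g) : False := by
  obtain ⟨M, hM, hM1, hM2⟩ := exists_mat hN hβ hS
  have hP := pairs_of hN hβ hS hM hM1 hM2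
  have hQ := p4split_of hβ hS hM hM1 hM2
  have h4 := p3 V M hM hP hQ
  -- the root
  let M' : V → V → Bool := fun x y => decide (M x y = 1)
  have ht : ∀ x y, M' x y = true ↔ M x y = 1 := fun x y => by simp [M']
  have hf : ∀ x y, M' x y = false ↔ M x y = 0 := fun x y => by
    rcases kz (M x y) with e | e <;> simp [M', e]
  have he : ∀ x y x' y', M' x y = M' x' y' ↔ M x y = M x' y' := by
    intro x y x' y'
    rcases kz (M x y) with e | e <;> rcases kz (M x' y') with e' | e' <;> simp [M', e, e']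
  have hn : ∀ x y x' y', (M' x y = !(M' x' y')) ↔ M x y ≠ M x' y' := by
    intro x y x' y'
    rcases kz (M x y) with e | e <;> rcases kz (M x' y') with e' | e' <;> simp [M', e, e']
  obtain ⟨r, -, hr⟩ := root (Finset.univ : Finset V).card M' Finset.univ rfl
    (fun x y => (he _ _ _ _).2 (hM x y)) Finset.univ_nonempty
    (by
      intro u _ v _ _ h1 h2
      rw [he] at h1
      rw [hn] at h2
      obtain ⟨g, g1, g2, g3, g4⟩ := hP u v h1 h2
      exact ⟨g, Finset.mem_univ _, (hn _ _ _ _).2 g1, (hn _ _ _ _).2 (by rw [g2]; exact g1),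
        (hn _ _ _ _).2 (by rw [g3]; exact g1),
        fun y hy => (he _ _ _ _).2 (g4 y ((he _ _ _ _).1 hy))⟩)
    (by
      rintro a - b - c - d - ⟨-, -, -, -, -, -, h1, h2, h3, h4', h5, h6⟩
      exact h4 a b c d ⟨(ht _ _).1 h1, (ht _ _).1 h2, (ht _ _).1 h3, (hf _ _).1 h4',
        (hf _ _).1 h5, (hf _ _).1 h6⟩)
  have hr' : ∀ y, M r y = M r r := fun y => (he _ _ _ _).1 (hr y (Finset.mem_univ _))
  set w : V → K := fun y => (∑ t, (if t = r then (1 : ZMod 2) else 0) * M t y) • β y +
    (if y = r then (1 : ZMod 2) else 0) • z with hw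
  have hwN : w ∈ N := hM1 (fun t => if t = r then 1 else 0)
  have hwy : ∀ y, w y = (M r r) • β y + (if y = r then (1 : ZMod 2) else 0) • z := by
    intro y
    rw [hw]
    simp only [ite_sum, one_mul, hr']
  rcases kz (M r r) with h0 | h1
  · obtain ⟨v, hv, hv'⟩ := hz w hwN r (by rw [hwy, h0, if_pos rfl, zero_smul, one_smul, zero_add])
    apply hv'
    rw [hwy, h0, if_neg hv, zero_smul, zero_smul, add_zero]
  · have hfst : ∀ y, (w y).1 = 1 := by
      intro y
      rw [hwy, h1]
      have : ∀ (b : K) (t : ZMod 2), b.1 = 1 → ((1 : ZMod 2) • b + t • z).1 = 1 := by decide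
      exact this _ _ (hβ y)
    have hw0 : w ≠ 0 := by
      intro h
      have := hfst r
      rw [h] at this
      simp at this
    obtain ⟨g, c₁, -, c₂, -, hs, hg1, hg2, -⟩ := hC w hwN hw0 (fun v hv => by
      have := hfst v
      rw [hv] at this
      exact absurd this (by decide))
    have := hfst g
    rw [← hs, Pi.add_apply, hg1, hg2] at this
    exact absurd this (by decide)

/-- a functional which is the parity on the `{0,z}`-words is given by a full vector -/
theorem exists_beta (hN : IsCode N) (f : (V → K) →ₗ[ZMod 2] ZMod 2)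
    (hf : ∀ u ∈ N, ZOnly u → f u = ∑ v, (u v).2) :
    ∃ β : V → K, (∀ v, (β v).1 = 1) ∧ ∀ u ∈ N, f u = form u β := by
  set t : V → K := fun v => (f (Pi.single v (0, 1)), f (Pi.single v (1, 0))) with ht
  have hft : ∀ u : V → K, f u = form u t := by
    intro u
    conv_lhs => rw [← Finset.univ_sum_single u]
    rw [map_sum]
    unfold form
    refine Finset.sum_congr rfl fun v _ => ?_
    have : (Pi.single v (u v) : V → K) = (u v).1 • (Pi.single v ((1, 0) : K) : V → K) +
        (u v).2 • (Pi.single v ((0, 1) : K) : V → K) := by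
      funext w
      by_cases hw : w = v
      · subst hw
        simp only [Pi.single_eq_same, Pi.add_apply, Pi.smul_apply]
        have : ∀ a : K, a = a.1 • ((1, 0) : K) + a.2 • ((0, 1) : K) := by decide
        exact this _
      · simp [hw]
    rw [this, map_add, map_smul, map_smul]
    simp only [smul_eq_mul, ht, kf]
  set P : Submodule (ZMod 2) (V → K) :=
    { carrier := {q | ZOnly q}
      zero_mem' := fun _ => rfl
      add_mem' := by
        intro q r h1 h2 w
        rw [Pi.add_apply, Prod.fst_add, h1 w, h2 w, add_zero]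
      smul_mem' := by
        intro c q h1 w
        rw [Pi.smul_apply, Prod.smul_fst, h1 w, smul_zero] } with hP
  obtain ⟨l, hl, q, hq, hlq⟩ := mem_sup_of_orth hN P (fun v => (1, 0) + t v) (by
    intro u hu hu2
    have h3 : ZOnly u := by
      intro w
      rw [← kf_z_right, ← form_single]
      apply hu2
      intro i
      by_cases h : i = w
      · subst h
        rw [Pi.single_eq_same]
        rfl
      · rw [Pi.single_eq_of_ne h]
        rfl
    have h4 := hf u hu h3
    rw [hft] at h4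
    unfold form at h4 ⊢
    have h5 : ∀ v, kf ((1, 0) + t v) (u v) = (u v).2 + kf (u v) (t v) := by
      intro v
      have : ∀ a b : K, a.1 = 0 → kf ((1, 0) + b) a = a.2 + kf a b := by decide
      exact this _ _ (h3 v)
    simp only [h5]
    rw [Finset.sum_add_distrib, h4]
    exact kadd _)
  refine ⟨t + l, ?_, ?_⟩
  · intro v
    have h1 := congrFun hlq v
    rw [Pi.add_apply] at h1
    have h2 := congrArg Prod.fst h1
    rw [Prod.fst_add, hq v, add_zero] at h2
    rw [Pi.add_apply, Prod.fst_add, h2]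
    have : ∀ b : K, b.1 + (((1, 0) : K) + b).1 = 1 := by decide
    exact this _
  · intro u hu
    rw [form_add_right, hN.iso u hu l hl, add_zero]
    exact hft u

/-- **LEMMA F, parity case** (notes 7137, 7157): in a self-dual code without weight one word in which
every nonzero `z`-free word splits no compatible functional is the parity on the `{0,z}`-words. -/
theorem lemF [Nonempty V] (hN : IsCode N)
    (hz : ∀ u ∈ N, ∀ g, u g = z → ∃ v, v ≠ g ∧ u v ≠ 0)
    (hC : Critical N) (f : (V → K) →ₗ[ZMod 2] ZMod 2)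
    (hf : ∀ u ∈ N, ZOnly u → f u = ∑ v, (u v).2)
    (hS : ∀ u ∈ N, u ≠ 0 → ZFree u → f u = 0 → ∃ g, ∃ c₁ ∈ N, ∃ c₂ ∈ N, c₁ + c₂ = u ∧ c₁ g = z ∧
      c₂ g = z ∧ (∀ v, v ≠ g → c₁ v = 0 ∨ c₂ v = 0) ∧ f c₁ = 0 ∧ f c₂ = 0) : False := by
  obtain ⟨β, hβ, hfβ⟩ := exists_beta hN f hf
  refine lemma_o hN hβ ?_ hz hC
  intro u hu hu0 hzf h0 _
  obtain ⟨g, c₁, h1, c₂, h2, hs, hg1, hg2, hd, e1, e2⟩ := hS u hu hu0 hzf (by rw [hfβ u hu, h0])
  exact ⟨g, c₁, h1, c₂, h2, hs, hg1, hg2, hd, by rw [← hfβ _ h1, e1], by rw [← hfβ _ h2, e2]⟩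

end Pool.Agent.H55.Kz


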